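import Mathlib

/-!
# Few alternations: counting the changes along a chain (MP_675993_lc)
-/

set_option autoImplicit false
set_option linter.unusedSectionVars false

namespace Pool.Agent.CKP

/-- the number of changes of `f` along a list -/
def chg {α C : Type} [DecidableEq C] (f : α → C) : List α → ℕ
  | [] => 0
  | a :: t => match t with
    | [] => 0
    | b :: _ => (if f a = f b then 0 else 1) + chg f t

section
variable {α C : Type} [DecidableEq C]

theorem chg_cons (f : α → C) (a b : α) (t : List α) :
    chg f (a :: b :: t) = (if f a = f b then 0 else 1) + chg f (b :: t) := rfl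

theorem chg_one (f : α → C) (a : α) : chg f [a] = 0 := rfl

/-- the number of values is at most the number of changes plus one -/
theorem card_le_chg (f : α → C) (a : α) (t : List α) :
    ((a :: t).map f).toFinset.card ≤ chg f (a :: t) + 1 := by
  induction t generalizing a with
  | nil => simp [chg]
  | cons b t ih =>
    rw [chg_cons]
    have h1 := ih b
    by_cases h : f a = f b
    · rw [if_pos h]
      have : ((a :: b :: t).map f).toFinset = ((b :: t).map f).toFinset := by
        rw [List.map_cons, List.toFinset_cons, Finset.insert_eq_self, List.mem_toFinset, h]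
        simp
      rw [this]
      omega
    · rw [if_neg h]
      rw [List.map_cons, List.toFinset_cons]
      have h2 := Finset.card_insert_le (f a) ((b :: t).map f).toFinset
      omega

/-- the changes of a vector -/
theorem chg_le_sum {β : Type} (X : List β) (g : β → α → Bool) (l : List α) :
    chg (fun p => X.map fun x => g x p) l ≤ (X.map fun x => chg (g x) l).sum := by
  induction l with
  | nil => simp [chg]
  | cons a t ih =>
    cases t with
    | nil => simp [chg]
    | cons b t =>
      have e1 : (X.map fun x => chg (g x) (a :: b :: t)) =
          X.map fun x => (if g x a = g x b then 0 else 1) + chg (g x) (b :: t) := rfl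
      rw [chg_cons, e1, List.sum_map_add]
      refine Nat.add_le_add ?_ ih
      by_cases h : (X.map fun x => g x a) = X.map fun x => g x b
      · rw [if_pos h]
        exact Nat.zero_le _
      · rw [if_neg h]
        have : ∃ x ∈ X, g x a ≠ g x b := by
          by_contra hcon
          push Not at hcon
          exact h (List.map_congr_left hcon)
        obtain ⟨x, hx, hne⟩ := this
        have h1 : (if g x a = g x b then 0 else 1) ∈
            X.map fun x => if g x a = g x b then 0 else 1 :=
          List.mem_map_of_mem (f := fun x => if g x a = g x b then 0 else 1) hx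
        rw [if_neg hne] at h1
        exact List.single_le_sum (fun _ _ => Nat.zero_le _) _ h1

/-- a chain on which `f` alternates -/
theorem exists_alt {R : α → α → Prop} (hR : ∀ a b c, R a b → R b c → R a c) (f : α → C) (a : α)
    (t : List α) (h : (a :: t).IsChain R) :
    ∃ w : List α, (a :: w).IsChain (fun x y => R x y ∧ f x ≠ f y) ∧
      w.length = chg f (a :: t) ∧ ∀ x ∈ w, x ∈ t := by
  induction t generalizing a with
  | nil => exact ⟨[], by simp, rfl, by simp⟩
  | cons b t ih =>
    rw [List.isChain_cons_cons] at h
    obtain ⟨hab, ht⟩ := h
    obtain ⟨w, hw1, hw2, hw3⟩ := ih b ht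
    rw [chg_cons]
    by_cases he : f a = f b
    · rw [if_pos he]
      refine ⟨w, ?_, by omega, fun x hx => List.mem_cons_of_mem _ (hw3 x hx)⟩
      cases w with
      | nil => simp
      | cons c w =>
        rw [List.isChain_cons_cons] at hw1 ⊢
        exact ⟨⟨hR _ _ _ hab hw1.1.1, by rw [he]; exact hw1.1.2⟩, hw1.2⟩
    · rw [if_neg he]
      refine ⟨b :: w, ?_, by rw [List.length_cons]; omega, ?_⟩
      · rw [List.isChain_cons_cons]
        exact ⟨⟨hab, he⟩, hw1⟩
      · intro x hx
        rcases List.mem_cons.mp hx with rfl | hx
        · exact List.mem_cons_self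
        · exact List.mem_cons_of_mem _ (hw3 x hx)

/-- Few changes along every chain give few vectors. -/
theorem few_vectors {β : Type} (X : List β) (g : β → α → Bool) (P : List α)
    {R : α → α → Prop} (hR : ∀ a b c, R a b → R b c → R a c) (hT : ∀ a b, R a b ∨ R b a)
    (t : β → ℝ) (hg : ∀ x ∈ X, ∀ w : List α,
      w.IsChain (fun a b => R a b ∧ g x a ≠ g x b) → (w.length : ℝ) ≤ t x) :
    ((P.map fun p => X.map fun x => g x p).toFinset.card : ℝ) ≤ (X.map t).sum + 1 := by
  classical
  set P' := P.insertionSort R with hP'
  have h1 : P'.Pairwise R := by
    haveI : Std.Total R := ⟨hT⟩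
    haveI : IsTrans α R := ⟨hR⟩
    exact List.pairwise_insertionSort R P
  have h2 : (P.map fun p => X.map fun x => g x p).toFinset =
      (P'.map fun p => X.map fun x => g x p).toFinset := by
    ext v
    rw [List.mem_toFinset, List.mem_toFinset]
    exact ((List.perm_insertionSort R P).symm.map _).mem_iff
  rw [h2]
  cases hc : P' with
  | nil =>
    simp only [List.map_nil, List.toFinset_nil, Finset.card_empty, Nat.cast_zero]
    have : 0 ≤ (X.map t).sum := by
      refine List.sum_nonneg ?_
      intro y hy
      obtain ⟨x, hx, rfl⟩ := List.mem_map.mp hy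
      have := hg x hx [] (by simp)
      simpa using this
    linarith
  | cons a l =>
    rw [hc] at h1
    have h3 := card_le_chg (fun p => X.map fun x => g x p) a l
    have h4 := chg_le_sum X g (a :: l)
    have h5 : ((X.map fun x => chg (g x) (a :: l)).sum : ℝ) ≤ (X.map t).sum := by
      rw [Nat.cast_list_sum, List.map_map]
      refine List.sum_le_sum fun x hx => ?_
      obtain ⟨w, hw1, hw2, _⟩ := exists_alt hR (g x) a l h1.isChain
      have h7 := hg x hx _ hw1
      rw [List.length_cons, hw2] at h7
      push_cast at h7
      simp only [Function.comp_apply]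
      linarith
    have h6 : (((a :: l).map fun p => X.map fun x => g x p).toFinset.card : ℝ) ≤
        ((X.map fun x => chg (g x) (a :: l)).sum : ℝ) + 1 := by
      have := h3.trans (Nat.add_le_add_right h4 1)
      exact_mod_cast this
    linarith

end

end Pool.Agent.CKP
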