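import Pool.Agent.Lib_helper57.YB.Poly
import Pool.Agent.Lib_helper74.KY.Blk.N0
import Pool.Agent.Lib_helper74.KY.F.Count

/-!
# The search for truth-table reductions with few alternations: definitions (MP_675993_lc)
-/

set_option autoImplicit false
set_option linter.unusedSectionVars false
set_option linter.unusedVariables false

namespace Pool.Agent.CKP

open Pool.Agent.CK

/-- the bit of the number `i` with the position `|u|` -/
def bitS (i : ℕ) (u : List Unit) : Bool := (Nat.bits i).getD u.length false

/-- the bits of the number `i` -/
def vb (ks : List Unit) (i : ℕ) : List Bool := (rangeU ks).map fun u => bitS i u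

/-- the number of bits for the positions in `L` -/
def kS (L : List ℕ) : List Unit := ulen (Nat.bits L.length)

/-- the elements of `L` for whose positions the bit `|u|` is `1` -/
def selS (L : List ℕ) (u : List Unit) : List ℕ :=
  (L.zipIdx.filter fun p => bitS p.2 u).map Prod.fst

/-- remove the element at the position `i` -/
def rmS (L : List ℕ) (i : ℕ) : List ℕ :=
  (L.zipIdx.filter fun p => !(decide (p.2 = i))).map Prod.fst

/-- the instances for the bits of the positions -/
def insS (n i : List Unit) (U : ℕ) (L : List ℕ) : List (List Bool) :=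
  (rangeU (kS L)).map fun u => zl n i (selS L u) U

/-- comparison of the thresholds of two codes -/
def leS (ℓ : ℕ → ℕ) (c c' : List Unit × ℕ) : Bool :=
  decide (ushl (List.replicate (ℓ c'.1.tail.tail.length) ()) c.2 ≤
    ushl (List.replicate (ℓ c.1.tail.tail.length) ()) c'.2)

/-- the answer to a query with the code `c`, if `p` is the least true threshold (or there is
none) -/
def ansS (ℓ : ℕ → ℕ) (p : List (List Unit × ℕ)) (c : List Unit × ℕ) : Bool :=
  if c.1.isEmpty = true then false else if c.1.tail.isEmpty = true then true
  else lcase p false fun c0 _ => leS ℓ c0 c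

/-- the answer to a query with the code `c` -/
def ansU (tm : ℕ → ℕ → Bool) (c : List Unit × ℕ) : Bool :=
  if c.1.isEmpty = true then false else if c.1.tail.isEmpty = true then true
  else tm c.1.tail.tail.length c.2

/-- the possible cuts -/
def pivS (X : List (List Bool × List (List Unit × ℕ))) : List (List (List Unit × ℕ)) :=
  [] :: X.flatMap fun x => x.2.map fun c => [c]

/-- the values of the instances for a cut -/
def vecS (ℓ : ℕ → ℕ) (V : List Bool → List Bool → Bool)
    (X : List (List Bool × List (List Unit × ℕ))) (p : List (List Unit × ℕ)) : List Bool :=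
  X.map fun x => V x.1 (x.2.map (ansS ℓ p))

/-- positions that can be removed -/
def candS (ℓ : ℕ → ℕ) (V : List Bool → List Bool → Bool)
    (X : List (List Bool × List (List Unit × ℕ))) (L : List ℕ) : List (ℕ × ℕ) :=
  L.zipIdx.filter fun a => (pivS X).all fun p => !(eqB (vecS ℓ V X p) (vb (kS L) a.2))

section search

variable {π : Type} (W : ℕ → ℕ → Bool) (phi : π → List (Bool × ℕ) → List Bool → Bool)
  (ℓ : ℕ → ℕ) (r d : ℕ) (Q : List Bool → List (List Bool))
  (V : List Bool → List Bool → Bool)

/-- the code of a query -/
def evS (T : List (Bool × ℕ)) (N : π) (n : List Unit) (q : List Bool) : List Unit × ℕ :=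
  if typ q = true then
    if valid W r d q = true then
      if decide (n.length < (wss q).length) = true then ([()], 0)
      else if (phi N T (xx q) || guardT (wss q) T) = true then ([()], 0) else ([], 0)
    else ([], 0)
  else (() :: () :: ulen (colr q), thr q)

/-- the instances with the codes of their queries -/
def XS (T : List (Bool × ℕ)) (N : π) (n i : List Unit) (U : ℕ) (L : List ℕ) :
    List (List Bool × List (List Unit × ℕ)) :=
  (insS n i U L).map fun z => (z, (Q z).map fun q => evS W phi r d T N n q)

/-- queries that contain a witness -/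
def hitsS (n i : List Unit) (U : ℕ) (L : List ℕ) : List (List Bool) :=
  (insS n i U L).flatMap fun z => (Q z).filter fun q => revB W r d n U q

/-- remove one element, or find a witness -/
def stepS (T : List (Bool × ℕ)) (N : π) (n i : List Unit) (U : ℕ) (L : List ℕ) : List ℕ :=
  lcase (hitsS W r d Q n i U L)
    (lcase (candS ℓ V (XS W phi r d Q T N n i U L) L) L fun a _ => rmS L a.2)
    fun q _ => [ushr i (ent (wss q) n.length).2]

/-- remove elements -/
def pruneS (T : List (Bool × ℕ)) (N : π) (n i : List Unit) (U : ℕ) (L : List ℕ) : List ℕ :=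
  L.foldl (fun L' _ => stepS W phi ℓ r d Q V T N n i U L') L

/-- one level of the search -/
def levelS (T : List (Bool × ℕ)) (N : π) (n : List Unit) (U : ℕ) (st : List Unit × List ℕ) :
    List Unit × List ℕ :=
  (st.1.tail, pruneS W phi ℓ r d Q V T N n st.1.tail U (children st.2))

/-- the search for a witness of `n` below `U`, for `U ≤ 2 ^ ℓ n` -/
def srchS (T : List (Bool × ℕ)) (N : π) (n : List Unit) (U : ℕ) : Bool :=
  hit W n U ((List.replicate (ℓ n.length) ()).foldl
    (fun st _ => levelS W phi ℓ r d Q V T N n U st) (List.replicate (ℓ n.length) (), [0])).2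

/-- the search for a witness of `n` below `U` -/
def searchS (T : List (Bool × ℕ)) (N : π) (n : List Unit) (U : ℕ) : Bool :=
  srchS W phi ℓ r d Q V T N n (capB ℓ n U)

/-- the least witness for `n` -/
def leastS (T : List (Bool × ℕ)) (N : π) (n : List Unit) : Bool × ℕ :=
  gfind (searchS W phi ℓ r d Q V T N n) (List.replicate (ℓ n.length) ())

/-- the table of the least witnesses for `0, ..., |n| - 1` -/
def tableS (N : π) (n : List Unit) : List (Bool × ℕ) :=
  n.foldl (fun T _ => T ++ [leastS W phi ℓ r d Q V T N (ulen T)]) []

end search

/-- Every chain of answer vectors of length `m` on which `V z` alternates has at most `t`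
elements. -/
def AltLe (V : List Bool → List Bool → Bool) (z : List Bool) (m : ℕ) (t : ℝ) : Prop :=
  ∀ w : List (List Bool), (∀ y ∈ w, y.length = m) →
    w.IsChain (fun y y' => List.Forall₂ (· ≤ ·) y y' ∧ V z y ≠ V z y') → (w.length : ℝ) ≤ t

/-- a truth-table reduction with few alternations in terms of typed polynomial time -/
def FData (O : Lang) (A B : Lang) : Prop :=
  ∃ (Q : List Bool → List (List Bool)) (V : List Bool → List Bool → Bool) (β : ℝ) (b : ℕ),
    0 ≤ β ∧ β < 1 ∧ PTime O Q ∧ PTime O (fun p : List Bool × List Bool => V p.1 p.2) ∧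
    (∀ z, AltLe V z (Q z).length ((z.length : ℝ) ^ β + b)) ∧ ∀ z, A z = V z ((Q z).map B)

/-- every list of at least `B n` nodes has a position whose bits are not the values of the
instances for any cut -/
def FewS (ℓ : ℕ → ℕ) (Q : List Bool → List (List Bool)) (V : List Bool → List Bool → Bool)
    (B : ℕ → ℕ) : Prop :=
  ∀ (n i : List Unit) (L : List ℕ) (U : ℕ), i.length ≤ ℓ n.length →
    (∀ a ∈ L, a < 2 ^ ℓ n.length) → U ≤ 2 ^ ℓ n.length → B n.length ≤ L.length →
    ∀ g : List Bool → List Unit × ℕ, ∃ j < L.length, ∀ p ∈ pivS ((insS n i U L).map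
      fun z => (z, (Q z).map g)), vecS ℓ V ((insS n i U L).map fun z => (z, (Q z).map g)) p ≠
        vb (kS L) j

end Pool.Agent.CKP
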