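import Pool.Agent.Lib_helper74.KY.F.Sound

/-!
# The search for truth-table reductions with few alternations: long lists (MP_675993_lc)
-/

set_option autoImplicit false
set_option linter.unusedSectionVars false
set_option linter.unusedVariables false

namespace Pool.Agent.CKP

open Pool.Agent.CK

variable {O : Lang} {π : Type} {W : ℕ → ℕ → Bool} {ℓ : ℕ → ℕ}
  {Q : List Bool → List (List Bool)} {V : List Bool → List Bool → Bool}

/-- a polynomial bound for the number of candidates -/
def GrowS (β : ℝ) (b s : ℕ) : Prop := ∀ m K : ℕ, (s * (m + 1)) ^ s ≤ K →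
  2 ≤ K ∧ (Nat.size K : ℝ) * (((m * K : ℕ) : ℝ) ^ β + b) + 1 < K

/-- some position below `K` has bits that are not in a short list -/
theorem exists_vb {K : ℕ} {ks : List Unit} (hK : K ≤ 2 ^ ks.length) (S : List (List Bool))
    (h : S.toFinset.card < K) : ∃ j < K, vb ks j ∉ S := by
  by_contra hcon
  push Not at hcon
  have h1 : (Finset.range K).card ≤ S.toFinset.card := by
    refine Finset.card_le_card_of_injOn (vb ks) ?_ ?_
    · intro i hi
      have := hcon i (Finset.mem_range.mp hi)
      simpa using this
    · intro i hi i' hi' he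
      rw [vb_eq, vb_eq] at he
      exact vecT_inj (lt_of_lt_of_le (Finset.mem_range.mp hi) hK)
        (lt_of_lt_of_le (Finset.mem_range.mp hi') hK) he
  rw [Finset.card_range] at h1
  omega

theorem insS_length (n i : List Unit) (U : ℕ) (L : List ℕ) :
    (insS n i U L).length = L.length.size := by
  unfold insS
  rw [List.length_map, units_eq (kS L), rangeU_replicate, List.length_map, List.length_range,
    kS_length]

theorem fewS_of {β : ℝ} (h0 : 0 ≤ β) {b s : ℕ} (hs : GrowS β b s)
    (hA : ∀ z, AltLe V z (Q z).length ((z.length : ℝ) ^ β + b)) :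
    FewS ℓ Q V (fun n => (s * ((2 * n + 14 * ℓ n + 22) + 1)) ^ s) := by
  intro n i L U hi hL hU hK g
  obtain ⟨hK2, hgrow⟩ := hs _ _ hK
  set m := 2 * n.length + 14 * ℓ n.length + 22 with hm
  set X := (insS n i U L).map fun z => (z, (Q z).map g) with hX
  have hlen : X.length = L.length.size := by
    rw [hX, List.length_map, insS_length]
  have hXm : ∀ x ∈ X, x.2.length = (Q x.1).length ∧ x.1.length ≤ m * L.length := by
    intro x hx
    rw [hX] at hx
    obtain ⟨z, hz, rfl⟩ := List.mem_map.mp hx
    refine ⟨by simp only [List.length_map], ?_⟩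
    unfold insS at hz
    obtain ⟨u, _, rfl⟩ := List.mem_map.mp hz
    have h2 := zl_size (n := n) (i := i) (A := selS L u) (U := U) (L := ℓ n.length)
      (s := (selS L u).length) hi rfl (fun a ha => hL a ((selS_sublist L u).subset ha)) hU
    have h3 := (selS_sublist L u).length_le
    have h4 : (selS L u).length * (4 * ℓ n.length + 2) ≤ L.length * (4 * ℓ n.length + 2) :=
      Nat.mul_le_mul h3 le_rfl
    show (zl n i (selS L u) U).length ≤ _
    rw [hm]
    nlinarith
  have hvec := few_vectors X (fun x p => V x.1 (x.2.map (ansS ℓ p))) (pivS X)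
    (R := ordS ℓ) ordS_trans ordS_total (fun x => (x.1.length : ℝ) ^ β + b) (by
      intro x hx w hw
      have h1 := hA x.1 (w.map fun p => x.2.map (ansS ℓ p)) (by
        intro y hy
        obtain ⟨p, _, rfl⟩ := List.mem_map.mp hy
        rw [List.length_map]
        exact (hXm x hx).1) (by
        rw [List.isChain_map]
        refine hw.imp ?_
        intro p p' hpp
        refine ⟨?_, hpp.2⟩
        rw [List.forall₂_map_left_iff, List.forall₂_map_right_iff]
        refine List.forall₂_same.mpr fun c _ => ?_
        have := hpp.1 c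
        cases h : ansS ℓ p c
        · exact Bool.false_le _
        · rw [this h])
      rwa [List.length_map] at h1)
  have hsum : (X.map fun x => (x.1.length : ℝ) ^ β + b).sum ≤
      (L.length.size : ℝ) * (((m * L.length : ℕ) : ℝ) ^ β + b) := by
    have h1 := List.sum_le_card_nsmul (X.map fun x => (x.1.length : ℝ) ^ β + b)
      (((m * L.length : ℕ) : ℝ) ^ β + b) (by
        intro y hy
        obtain ⟨x, hx, rfl⟩ := List.mem_map.mp hy
        have h2 : ((x.1.length : ℕ) : ℝ) ≤ ((m * L.length : ℕ) : ℝ) := by
          exact_mod_cast (hXm x hx).2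
        have h3 := Real.rpow_le_rpow (Nat.cast_nonneg _) h2 h0
        linarith)
    rwa [List.length_map, hlen, nsmul_eq_mul] at h1
  have hcard : ((pivS X).map fun p => X.map fun x => V x.1 (x.2.map (ansS ℓ p))).toFinset.card <
      L.length := by
    have : ((((pivS X).map fun p => X.map fun x => V x.1 (x.2.map (ansS ℓ p))).toFinset.card : ℕ) :
        ℝ) < L.length := by linarith
    exact_mod_cast this
  obtain ⟨j, hj, hj2⟩ := exists_vb (ks := kS L) (lt_kS L).le _ hcard
  refine ⟨j, hj, fun p hp he => hj2 ?_⟩
  rw [← he]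
  exact List.mem_map_of_mem (f := fun p => X.map fun x => V x.1 (x.2.map (ansS ℓ p))) hp

theorem upoly_fewS (hℓ : UPoly O ℓ) (s : ℕ) :
    UPoly O (fun n => (s * ((2 * n + 14 * ℓ n + 22) + 1)) ^ s) :=
  ((UPoly.const s).mul (((((UPoly.const 2).mul UPoly.id).add ((UPoly.const 14).mul hℓ)).add
    (UPoly.const 22)).add (UPoly.const 1))).pow s

end Pool.Agent.CKP
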