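import Pool.Agent.Lib_helper74.KY.F.Poly
import Pool.Agent.Lib_helper74.KY.ClassesF
import Pool.Agent.Lib_helper74.KY.ClassesT
import Pool.Agent.Lib_helper74.KY.Blk.X1
import Pool.Agent.Lib_helper74.KY.Blk.X2
import Pool.Agent.Lib_helper74.KY.Blk.YB
import Pool.Agent.Lib_helper74.KY.Blk.Z2
import Pool.Agent.Lib_helper74.KY.Blk.K
import Pool.Agent.Lib_helper57.YR.Nest
import Pool.Agent.Lib_helper57.YR.Few

/-!
# Keys: the theorems for truth-table reductions with few alternations (MP_675993_lc)
-/

set_option autoImplicit false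
set_option linter.unusedSectionVars false

namespace Pool.Agent.CKP

open Pool.Agent.CK

variable {O : Lang}
variable {α β γ δ : Type} [ToD α] [ToD β] [ToD γ] [ToD δ]

/-! ### the kinds of reductions -/

theorem fdata_of {A B : Lang} (h : FewAltReducible O A B) : FData O A B := by
  obtain ⟨q, V, β, b, hβ, hq, hV, h⟩ := h
  refine ⟨fun z => items (q z), fun z w => V (CK.code z ++ w), max β 0, b + 1, le_max_right _ _,
    max_lt hβ one_pos, PTime.items (ptime_of_inFP hq),
    (ptime_of_inP hV).comp (PTime.append (PTime.code1 PTime.id.fst) PTime.id.snd), ?_, ?_⟩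
  · intro z w hw1 hw2
    obtain ⟨l, h2, _, h4⟩ := h z
    have hw1' : ∀ y ∈ w, y.length = (items (q z)).length := hw1
    rw [h2, items_code] at hw1'
    have h5 := h4 w hw1' hw2
    have h6 : (z.length : ℝ) ^ β ≤ (z.length : ℝ) ^ (max β 0) + 1 := by
      rcases Nat.eq_zero_or_pos z.length with h0 | h0
      · rw [h0, Nat.cast_zero]
        have g1 : (0 : ℝ) ^ β ≤ 1 := by
          by_cases hb : β = 0
          · rw [hb, Real.rpow_zero]
          · rw [Real.zero_rpow hb]
            exact zero_le_one
        have g2 : (0 : ℝ) ≤ 0 ^ (max β 0) := Real.rpow_nonneg le_rfl _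
        linarith
      · have g1 : (1 : ℝ) ≤ z.length := by exact_mod_cast h0
        have g2 := Real.rpow_le_rpow_of_exponent_le g1 (le_max_left β 0)
        linarith
    push_cast
    linarith
  · intro z
    obtain ⟨l, h2, h3, _⟩ := h z
    show A z = V (CK.code z ++ (items (q z)).map B)
    rw [h2, items_code]
    exact h3

theorem tt_of_fewAlt {A B : Lang} (h : FewAltReducible O A B) : TTReducible O A B := by
  obtain ⟨q, V, β, b, hβ, hq, hV, h⟩ := h
  exact ⟨q, V, hq, hV, fun x => by
    obtain ⟨l, h2, h3, _⟩ := h x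
    exact ⟨l, h2, h3⟩⟩

/-- an increasing sequence of vectors of length `m` with different neighbours is short -/
theorem chain_length (m : ℕ) : ∀ (w : List (List Bool)), (∀ y ∈ w, y.length = m) →
    w.IsChain (fun y y' => List.Forall₂ (· ≤ ·) y y' ∧ y ≠ y') → w.length ≤ m + 1 := by
  have hle : ∀ y y' : List Bool, List.Forall₂ (· ≤ ·) y y' → y.count true ≤ y'.count true ∧
      (y.count true = y'.count true → y = y') := by
    intro y y' h
    induction h with
    | nil => simp
    | @cons a b l l' hab hl ih =>
      obtain ⟨ih1, ih2⟩ := ih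
      cases a <;> cases b
      · simp only [List.count_cons_of_ne (by decide : (false : Bool) ≠ true)]
        exact ⟨ih1, fun h => by rw [ih2 h]⟩
      · simp only [List.count_cons_self, List.count_cons_of_ne (by decide : (false : Bool) ≠ true)]
        exact ⟨by omega, fun h => by omega⟩
      · exact absurd hab (by decide)
      · simp only [List.count_cons_self]
        exact ⟨by omega, fun h => by rw [ih2 (by omega)]⟩
  have key : ∀ (w : List (List Bool)) (a : List Bool),
      (a :: w).IsChain (fun y y' => List.Forall₂ (· ≤ ·) y y' ∧ y ≠ y') →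
      (∀ y ∈ a :: w, y.length = m) → a.count true + w.length ≤ m := by
    intro w
    induction w with
    | nil =>
      intro a _ h
      have := h a List.mem_cons_self
      have h2 := List.count_le_length (a := true) (l := a)
      simp only [List.length_nil]
      omega
    | cons b w ih =>
      intro a h1 h2
      rw [List.isChain_cons_cons] at h1
      have h3 := ih b h1.2 (fun y hy => h2 y (List.mem_cons_of_mem _ hy))
      obtain ⟨h4, h5⟩ := hle a b h1.1.1
      have h6 : a.count true ≠ b.count true := fun h => h1.1.2 (h5 h)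
      rw [List.length_cons]
      omega
  intro w hw1 hw2
  cases w with
  | nil => simp
  | cons a w =>
    have := key w a hw2 hw1
    rw [List.length_cons]
    omega

/-- Truth-table reductions with at most `|x| ^ β + b` queries have few alternations. -/
theorem fewAlt_of_queries {A B : Lang} {β : ℝ} (hβ : β < 1) {b : ℕ}
    (h : ∃ (q : List Bool → List Bool) (V : Lang), InFP O q ∧ InP O V ∧
      ∀ x, ∃ l : List (List Bool), (l.length : ℝ) ≤ (x.length : ℝ) ^ β + b ∧
        q x = l.flatMap CK.code ∧ A x = V (CK.code x ++ l.map B)) : FewAltReducible O A B := by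
  obtain ⟨q, V, hq, hV, h⟩ := h
  refine ⟨q, V, β, b + 1, hβ, hq, hV, fun x => ?_⟩
  obtain ⟨l, h1, h2, h3⟩ := h x
  refine ⟨l, h2, h3, fun w hw1 hw2 => ?_⟩
  have h4 := chain_length l.length w hw1
    (hw2.imp fun y y' hy => ⟨hy.1, fun he => hy.2 (by rw [he])⟩)
  have h5 : (w.length : ℝ) ≤ l.length + 1 := by exact_mod_cast h4
  push_cast
  linarith

/-- Bounded truth-table reductions have few alternations. -/
theorem fewAlt_of_btt {A B : Lang} (h : BTTReducible O A B) : FewAltReducible O A B := by
  obtain ⟨q, V, b, hq, hV, h⟩ := h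
  refine fewAlt_of_queries (β := 0) one_pos (b := b) ⟨q, V, hq, hV, fun x => ?_⟩
  obtain ⟨l, h1, h2, h3⟩ := h x
  refine ⟨l, ?_, h2, h3⟩
  rw [Real.rpow_zero]
  have : (l.length : ℝ) ≤ b := by exact_mod_cast h1
  linarith

/-- Positive truth-table reductions (with any number of queries) have few alternations. -/
theorem fewAlt_of_positive {A B : Lang}
    (h : ∃ (q : List Bool → List Bool) (V : Lang), InFP O q ∧ InP O V ∧
      ∀ x, ∃ l : List (List Bool), q x = l.flatMap CK.code ∧ A x = V (CK.code x ++ l.map B) ∧
        ∀ y y' : List Bool, y.length = l.length → List.Forall₂ (· ≤ ·) y y' →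
          V (CK.code x ++ y) = true → V (CK.code x ++ y') = true) : FewAltReducible O A B := by
  obtain ⟨q, V, hq, hV, h⟩ := h
  refine ⟨q, V, 0, 1, one_pos, hq, hV, fun x => ?_⟩
  obtain ⟨l, h2, h3, h4⟩ := h x
  refine ⟨l, h2, h3, fun w hw1 hw2 => ?_⟩
  rw [Real.rpow_zero]
  have : w.length ≤ 2 := by
    match w, hw1, hw2 with
    | [], _, _ => simp
    | [a], _, _ => simp
    | [a, b], _, _ => simp
    | a :: b :: c :: t, hw1, hw2 =>
      exfalso
      rw [List.isChain_cons_cons, List.isChain_cons_cons] at hw2
      obtain ⟨⟨g1, g2⟩, ⟨g3, g4⟩, _⟩ := hw2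
      have k1 := h4 a b (hw1 a (by simp)) g1
      have k2 := h4 b c (hw1 b (by simp)) g3
      cases ha : V (CK.code x ++ a) <;> cases hb : V (CK.code x ++ b) <;>
        cases hc : V (CK.code x ++ c) <;> simp_all
  have h5 : (w.length : ℝ) ≤ 2 := by exact_mod_cast this
  push_cast
  linarith

/-- Languages that are complete for bounded truth-table reductions are complete for truth-table
reductions with few alternations. -/
theorem FewAltComplete.of_btt {C : Lang} (h : BTTComplete O C) : FewAltComplete O C :=
  ⟨h.1, fun A hA => fewAlt_of_btt (h.2 A hA)⟩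

/-! ### the table of least witnesses -/

theorem table_f {W : ℕ → ℕ → Bool} {ℓ : ℕ → ℕ}
    (hneg : ∀ C, TuringComplete O C → FewAltComplete O C) (hver : Ver O W ℓ) (hcut : Cut W ℓ)
    {π : Type} [ToD π] {phi : π → List (Bool × ℕ) → List Bool → Bool}
    (hphi : PTime O (fun p : π × List (Bool × ℕ) × List Bool => phi p.1 p.2.1 p.2.2)) {rr : ℕ}
    (hrr : 1 ≤ rr) :
    ∃ Tab : π → List Unit → List (Bool × ℕ),
      PTime O (fun p : π × List Unit => Tab p.1 p.2) ∧
      ∀ (u : π) (N : ℕ),
        (∀ (T : List (Bool × ℕ)) (y : List Bool), T.length < N →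
          (∀ i < T.length, LeastSpec W i (ent T i)) → y.length ^ rr ≤ T.length →
          phi u T y = UK O y) →
        ∀ n ≤ N, ∀ i < n, LeastSpec W i (ent (Tab u (List.replicate n ())) i) := by
  obtain ⟨d, hd⟩ := CL_complete hver
  obtain ⟨Q, V, β, b, h0, h1, hQ, hV, hA, hQV⟩ := fdata_of ((hneg _ (hd rr hrr)).2 _
    (ZLs_inNP hver))
  obtain ⟨s, hs⟩ := few_growth h0 h1 b
  have hB : FewS ℓ Q V (fun n => (s * ((2 * n + 14 * ℓ n + 22) + 1)) ^ s) := fewS_of h0 hs hA
  have hB2 : ∀ n, 2 ≤ (fun n => (s * ((2 * n + 14 * ℓ n + 22) + 1)) ^ s) n := fun n =>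
    (hs (2 * n + 14 * ℓ n + 22) _ le_rfl).1
  refine ⟨fun N n => tableS W phi ℓ rr d Q V N n,
    PTime.tableS hver hphi hQ hV (upoly_fewS hver.hl s) hB hB2 PTime.id.fst PTime.id.snd,
    fun N n0 hcor => ?_⟩
  exact tableS_spec hver hcut hB hB2 hQV hcor

/-! ### exponential time with advice -/

theorem often_f (hneg : ∀ C, TuringComplete O C → FewAltComplete O C) (ε : ℝ) (L : Lang)
    (hε : 0 < ε) (hL : InENP O L) : InOftenEadvice O ε L := by
  obtain ⟨c, hc1, hcε⟩ := exists_r hε
  obtain ⟨W0, ℓ0, ans0, hver0, hans0, hansL0⟩ := core_search hL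
  obtain ⟨W, ℓ, ans, hver, hcut, hans, hansL⟩ := nest_pr hver0 hans0 hansL0
  obtain ⟨k, hk⟩ := CL_complete hver
  obtain ⟨Q, V, hQ, hV, hUV⟩ := tt_data (tt_of_fewAlt
    ((hneg _ (hk (3 * (c + 1)) (by omega))).2 (UK O) UK_inNP))
  obtain ⟨P, hP⟩ := exists_qbound hQ
  obtain ⟨d, hd⟩ := exists_pow P
  obtain ⟨j0, hj0⟩ : ∃ j0 : ℕ, j0 = 3 ^ d := ⟨_, rfl⟩
  obtain ⟨dec, hdec⟩ : ∃ dec : List Bool → List (Bool × ℕ) → List Bool → Bool,
      dec = fun w T y => decR O W (3 * (c + 1)) k Q V (thrW w) (ulen w) T y := ⟨_, rfl⟩
  have hdecP : PTime O (fun p : List Bool × List (Bool × ℕ) × List Bool =>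
      dec p.1 p.2.1 p.2.2) := by
    rw [hdec]
    refine PTime.decR hver (3 * (c + 1)) k hQ hV ?_ PTime.id.fst.ulen PTime.id.snd.fst
      PTime.id.snd.snd
    exact PTime.length (PTime.filter (f := fun _ b => b) PTime.id.fst PTime.id.snd)
  have hphi : PTime O (fun p : List Bool × List (Bool × ℕ) × List Bool =>
      phiW O j0 dec p.1 p.2.1 p.2.2) := by
    unfold phiW
    exact PTime.ite (PTime.nat_lt PTime.id.snd.fst.length (PTime.const j0))
      (PTime.brute PTime.id.snd.snd (PTime.const (List.replicate (2 ^ (j0 + 1)) ()))).snd hdecP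
  obtain ⟨Tab, hTab, hTab'⟩ := table_f hneg hver hcut (phi := phiW O j0 dec)
    hphi (rr := 2 * d + 1 + (2 * c + 2)) (by omega)
  -- the program
  have hbig : PTime O (fun p : List Bool × List Bool =>
      toNum (List.replicate (2 * (p.2.length + 2) ^ c) ()) p.1) := by
    refine PTime.toNum ?_ PTime.id.fst
    exact ((UPoly.const 2).mul (UPoly.tb c)).comp PTime.id.snd
  have hansW : PTime O (fun p : List Bool × List Bool => ansW c ans Tab p.1 p.2) := by
    unfold ansW
    refine hans.comp (hbig.pair ?_)
    refine (PTime.ent ?_ hbig).snd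
    exact hTab.comp (PTime.id.snd.pair (PTime.cons (PTime.const ()) hbig))
  have hkeyP : PTime O (fun p : List Bool × List Bool =>
      (keyK W (3 * (c + 1)) k ans p.1 (Q p.2)).headD false) :=
    PTime.headD (PTime.keyK hver (3 * (c + 1)) k hans PTime.id.fst (hQ.comp PTime.id.snd))
      (PTime.const false)
  have hVP : PTime O (fun p : List Bool × List Bool => if p.2.headD false = true then
      ansW c ans Tab p.1 p.2.tail
      else (keyK W (3 * (c + 1)) k ans p.1 (Q p.2.tail)).headD false) := by
    have ht : PTime O (fun p : List Bool × List Bool => (p.1, p.2.tail)) :=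
      PTime.id.fst.pair PTime.id.snd.tail
    exact PTime.ite (PTime.headD PTime.id.snd (PTime.const false))
      (PTime.comp (g := fun p : List Bool × List Bool => ansW c ans Tab p.1 p.2) hansW ht)
      (PTime.comp (g := fun p : List Bool × List Bool =>
        (keyK W (3 * (c + 1)) k ans p.1 (Q p.2)).headD false) hkeyP ht)
  refine often_of hc1 hcε (V := fun x w => if w.headD false = true then
      ansW c ans Tab x w.tail else (keyK W (3 * (c + 1)) k ans x (Q w.tail)).headD false)
    hVP (M := 14) fun m0 hm0 => ?_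
  by_cases hkey : ∃ z : List Bool, m0 ≤ z.length ∧ z.length ≤ 2 ^ m0 ∧
      ∀ x : List Bool, 2 ^ x.length ≤ (z.length + 2) ^ c →
        keyK W (3 * (c + 1)) k ans x (Q z) = [L x]
  · -- the key is the advice
    obtain ⟨z, hz1, hz2, hz⟩ := hkey
    refine ⟨false :: z, by simp; omega, by simpa using hz2, fun x hx => ?_⟩
    have h1 := hz x (by simpa using hx)
    simp [h1]
  · -- no advice is needed
    push Not at hkey
    have hshort : ∀ z : List Bool, m0 ≤ z.length → z.length ≤ 2 ^ m0 → ∀ q ∈ Q z,
        typ q = true → valid W (3 * (c + 1)) k q = true →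
        (∀ i < (wss q).length, LeastSpec W i (ent (wss q) i)) →
        (wss q).length < 2 * (z.length + 2) ^ c := by
      intro z hz1 hz2 q hq h1 h2 h3
      obtain ⟨x, hx1, hx2⟩ := hkey z hz1 hz2
      by_contra hcon
      rw [not_lt] at hcon
      refine hx2 ?_
      have hlt : num x < (wss q).length := by
        have g6 := num_lt x
        rw [pow_succ] at g6
        omega
      exact keyK_eq (hansL x) hq h1 h2 hlt (h3 _ hlt)
    have hlen := length_advW m0
    refine ⟨true :: advW m0, ?_, ?_, fun x hx => ?_⟩
    · rw [List.length_cons, hlen]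
      have : m0 < 2 ^ m0 := Nat.lt_two_pow_self
      omega
    · rw [List.length_cons, hlen]
    · rw [List.length_cons, hlen] at hx
      show (if (true :: advW m0).headD false = true then ansW c ans Tab x (true :: advW m0).tail
        else _) = L x
      rw [List.headD_cons, if_pos rfl, List.tail_cons]
      have hN : num x < 2 * (2 ^ m0 + 2) ^ c := by
        have g6 := num_lt x
        rw [pow_succ] at g6
        have h1 : 2 ^ x.length ≤ (2 ^ m0 + 2) ^ c := hx
        omega
      have hnum : toNum (List.replicate (2 * ((advW m0).length + 2) ^ c) ()) x =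
          List.replicate (num x) () := by
        refine toNum_eq _ _ ?_
        rw [List.length_replicate, hlen]
        exact hN.le
      unfold ansW
      rw [hnum, List.length_replicate]
      refine hansL x _ ?_
      have hcons : (() :: List.replicate (num x) ()) = List.replicate (num x + 1) () := rfl
      rw [hcons]
      refine hTab' (advW m0) (2 * (2 ^ m0 + 2) ^ c + 2) ?_ (num x + 1) (by omega) (num x)
        (by omega)
      -- correctness of the decision procedure
      intro T y hTN hT hy
      unfold phiW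
      by_cases h0 : T.length < j0
      · rw [if_pos (by simpa using h0), Bool.eq_iff_iff]
        refine brute_eq ?_
        rw [List.length_replicate]
        refine Nat.pow_le_pow_right (by norm_num) ?_
        have h1 : y.length ≤ y.length ^ (2 * d + 1 + (2 * c + 2)) := Nat.le_self_pow (by omega) _
        omega
      · rw [if_neg (by simpa using h0), hdec]
        show decR O W (3 * (c + 1)) k Q V (thrW (advW m0)) (ulen (advW m0)) T y = UK O y
        rw [thrW_advW]
        have hyl : y.length ≤ 2 ^ m0 := z2_len (f := 2 * d + 1) (c := c) Nat.one_le_two_pow hy hTN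
        refine decR_eq hUV hm0 ?_ (fun z hz1 hz2 => hshort z hz1 (hz2.trans hyl)) ?_
        · rw [ulen_eq, List.length_replicate, hlen]
        · intro z hz q hq i hi
          refine hT i ?_
          have g1 := hP z q hq
          have g2 := poly_mono P hz
          have g3 := hd y.length
          have g4 := z2_pow (m := y.length) (d := d) (e := 2 * c + 2) hj0 hy (not_lt.mp h0)
          omega

end Pool.Agent.CKP
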