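import Pool.Agent.Lib_helper74.KY.F.Search

/-!
# The search for truth-table reductions with few alternations: polynomial time (MP_675993_lc)
-/

set_option autoImplicit false
set_option linter.unusedSectionVars false
set_option linter.unusedVariables false

namespace Pool.Agent.CKP

open Pool.Agent.CK

variable {O : Lang} {π : Type} [ToD π] {W : ℕ → ℕ → Bool}
  {phi : π → List (Bool × ℕ) → List Bool → Bool} {ℓ : ℕ → ℕ} {r d : ℕ}
  {Q : List Bool → List (List Bool)} {V : List Bool → List Bool → Bool}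
variable {α β γ δ : Type} [ToD α] [ToD β] [ToD γ] [ToD δ]

theorem PTime.bitS {i : γ → ℕ} {u : γ → List Unit} (hi : PTime O i) (hu : PTime O u) :
    PTime O (fun x => CKP.bitS (i x) (u x)) := by
  unfold CKP.bitS
  exact PTime.getD hu (PTime.bits hi) (PTime.const false)

theorem PTime.vb {ks : γ → List Unit} {i : γ → ℕ} (hk : PTime O ks) (hi : PTime O i) :
    PTime O (fun x => CKP.vb (ks x) (i x)) := by
  unfold CKP.vb
  exact PTime.map (f := fun x (u : List Unit) => CKP.bitS (i x) u) (PTime.rangeU hk)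
    (PTime.bitS (hi.comp PTime.id.fst) PTime.id.snd)

theorem PTime.kS {L : γ → List ℕ} (hL : PTime O L) : PTime O (fun x => CKP.kS (L x)) := by
  unfold CKP.kS
  exact (PTime.bits hL.length).ulen

theorem PTime.selS {L : γ → List ℕ} {u : γ → List Unit} (hL : PTime O L) (hu : PTime O u) :
    PTime O (fun x => CKP.selS (L x) (u x)) := by
  unfold CKP.selS
  exact PTime.map (f := fun (_ : γ) (p : ℕ × ℕ) => p.1)
    (PTime.filter (f := fun x (p : ℕ × ℕ) => CKP.bitS p.2 (u x)) (PTime.zipIdx hL)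
      (PTime.bitS PTime.id.snd.snd (hu.comp PTime.id.fst))) PTime.id.snd.fst

theorem PTime.rmS {L : γ → List ℕ} {i : γ → ℕ} (hL : PTime O L) (hi : PTime O i) :
    PTime O (fun x => CKP.rmS (L x) (i x)) := by
  unfold CKP.rmS
  exact PTime.map (f := fun (_ : γ) (p : ℕ × ℕ) => p.1)
    (PTime.filter (f := fun x (p : ℕ × ℕ) => !(decide (p.2 = i x))) (PTime.zipIdx hL)
      (PTime.nat_eq PTime.id.snd.snd (hi.comp PTime.id.fst)).not) PTime.id.snd.fst

theorem PTime.insS {n i : γ → List Unit} {U : γ → ℕ} {L : γ → List ℕ} (hn : PTime O n)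
    (hi : PTime O i) (hU : PTime O U) (hL : PTime O L) :
    PTime O (fun x => CKP.insS (n x) (i x) (U x) (L x)) := by
  unfold CKP.insS
  refine PTime.map (f := fun x (u : List Unit) =>
    CKP.zl (n x) (i x) (CKP.selS (L x) u) (U x)) (PTime.rangeU (PTime.kS hL)) ?_
  exact PTime.zl (hn.comp PTime.id.fst) (hi.comp PTime.id.fst)
    (PTime.selS (hL.comp PTime.id.fst) PTime.id.snd) (hU.comp PTime.id.fst)

theorem PTime.leS (hℓ : UPoly O ℓ) {c c' : γ → List Unit × ℕ} (hc : PTime O c)
    (hc' : PTime O c') : PTime O (fun x => CKP.leS ℓ (c x) (c' x)) := by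
  unfold CKP.leS
  exact PTime.nat_le (PTime.ushl (hℓ.comp hc'.fst.tail.tail) hc.snd)
    (PTime.ushl (hℓ.comp hc.fst.tail.tail) hc'.snd)

theorem PTime.ansS (hℓ : UPoly O ℓ) {p : γ → List (List Unit × ℕ)} {c : γ → List Unit × ℕ}
    (hp : PTime O p) (hc : PTime O c) : PTime O (fun x => CKP.ansS ℓ (p x) (c x)) := by
  unfold CKP.ansS
  refine PTime.ite (PTime.isNil hc.fst) (PTime.const false)
    (PTime.ite (PTime.isNil hc.fst.tail) (PTime.const true) ?_)
  exact PTime.lcase (l := p) (n := fun _ => false)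
    (c := fun x (c0 : List Unit × ℕ) _ => CKP.leS ℓ c0 (c x)) hp (PTime.const false)
    (PTime.leS hℓ PTime.id.snd.fst (hc.comp PTime.id.fst))

theorem PTime.pivS {X : γ → List (List Bool × List (List Unit × ℕ))} (hX : PTime O X) :
    PTime O (fun x => CKP.pivS (X x)) := by
  unfold CKP.pivS
  refine PTime.cons (PTime.const []) (PTime.flatMap
    (f := fun _ (x : List Bool × List (List Unit × ℕ)) => x.2.map fun c => [c]) hX ?_)
  exact PTime.map (f := fun _ (c : List Unit × ℕ) => [c]) PTime.id.snd.snd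
    (PTime.cons PTime.id.snd (PTime.const []))

theorem PTime.vecS (hℓ : UPoly O ℓ) (hV : PTime O (fun p : List Bool × List Bool => V p.1 p.2))
    {X : γ → List (List Bool × List (List Unit × ℕ))} {p : γ → List (List Unit × ℕ)}
    (hX : PTime O X) (hp : PTime O p) : PTime O (fun x => CKP.vecS ℓ V (X x) (p x)) := by
  unfold CKP.vecS
  refine PTime.map (f := fun x (y : List Bool × List (List Unit × ℕ)) =>
    V y.1 (y.2.map (CKP.ansS ℓ (p x)))) hX ?_
  refine hV.comp (PTime.id.snd.fst.pair (PTime.map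
    (f := fun (z : γ × (List Bool × List (List Unit × ℕ))) (c : List Unit × ℕ) =>
      CKP.ansS ℓ (p z.1) c) PTime.id.snd.snd ?_))
  exact PTime.ansS hℓ (hp.comp PTime.id.fst.fst) PTime.id.snd

theorem PTime.candS (hℓ : UPoly O ℓ) (hV : PTime O (fun p : List Bool × List Bool => V p.1 p.2))
    {X : γ → List (List Bool × List (List Unit × ℕ))} {L : γ → List ℕ}
    (hX : PTime O X) (hL : PTime O L) : PTime O (fun x => CKP.candS ℓ V (X x) (L x)) := by
  unfold CKP.candS
  refine PTime.filter (f := fun x (a : ℕ × ℕ) => (CKP.pivS (X x)).all fun p =>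
    !(CKP.eqB (CKP.vecS ℓ V (X x) p) (CKP.vb (CKP.kS (L x)) a.2))) (PTime.zipIdx hL) ?_
  refine PTime.all (f := fun (z : γ × (ℕ × ℕ)) (p : List (List Unit × ℕ)) =>
    !(CKP.eqB (CKP.vecS ℓ V (X z.1) p) (CKP.vb (CKP.kS (L z.1)) z.2.2)))
    (PTime.pivS (hX.comp PTime.id.fst)) ?_
  exact (PTime.eqB (PTime.vecS hℓ hV (hX.comp PTime.id.fst.fst) PTime.id.snd)
    (PTime.vb (PTime.kS (hL.comp PTime.id.fst.fst)) PTime.id.fst.snd.snd)).not

theorem PTime.evS (hver : Ver O W ℓ)
    (hphi : PTime O (fun p : π × List (Bool × ℕ) × List Bool => phi p.1 p.2.1 p.2.2))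
    {T : γ → List (Bool × ℕ)} {N : γ → π} {n : γ → List Unit} {q : γ → List Bool}
    (hT : PTime O T) (hN : PTime O N) (hn : PTime O n) (hq : PTime O q) :
    PTime O (fun x => CKP.evS W phi r d (T x) (N x) (n x) (q x)) := by
  unfold CKP.evS
  refine PTime.ite hq.typ (PTime.ite (PTime.valid hver r d hq) (PTime.ite
    (PTime.nat_lt hn.length hq.wss.length) (PTime.const ([()], 0)) (PTime.ite
      ((hphi.comp (hN.pair (hT.pair hq.xx))).or (PTime.guardT hq.wss hT)) (PTime.const ([()], 0))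
      (PTime.const ([], 0)))) (PTime.const ([], 0))) ?_
  exact (PTime.cons (PTime.const ()) (PTime.cons (PTime.const ()) hq.colr.ulen)).pair hq.thr

theorem PTime.XS (hver : Ver O W ℓ)
    (hphi : PTime O (fun p : π × List (Bool × ℕ) × List Bool => phi p.1 p.2.1 p.2.2))
    (hQ : PTime O Q) {T : γ → List (Bool × ℕ)} {N : γ → π} {n i : γ → List Unit} {U : γ → ℕ}
    {L : γ → List ℕ} (hT : PTime O T) (hN : PTime O N) (hn : PTime O n) (hi : PTime O i)
    (hU : PTime O U) (hL : PTime O L) :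
    PTime O (fun x => CKP.XS W phi r d Q (T x) (N x) (n x) (i x) (U x) (L x)) := by
  unfold CKP.XS
  refine PTime.map (f := fun x (z : List Bool) =>
    (z, (Q z).map fun q => CKP.evS W phi r d (T x) (N x) (n x) q)) (PTime.insS hn hi hU hL) ?_
  refine PTime.id.snd.pair (PTime.map (f := fun (p : γ × List Bool) (q : List Bool) =>
    CKP.evS W phi r d (T p.1) (N p.1) (n p.1) q) (hQ.comp PTime.id.snd) ?_)
  exact PTime.evS hver hphi (hT.comp PTime.id.fst.fst) (hN.comp PTime.id.fst.fst)
    (hn.comp PTime.id.fst.fst) PTime.id.snd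

theorem PTime.hitsS (hver : Ver O W ℓ) (hQ : PTime O Q) {n i : γ → List Unit} {U : γ → ℕ}
    {L : γ → List ℕ} (hn : PTime O n) (hi : PTime O i) (hU : PTime O U) (hL : PTime O L) :
    PTime O (fun x => CKP.hitsS W r d Q (n x) (i x) (U x) (L x)) := by
  unfold CKP.hitsS
  refine PTime.flatMap (f := fun x (z : List Bool) => (Q z).filter
    fun q => CKP.revB W r d (n x) (U x) q) (PTime.insS hn hi hU hL) ?_
  refine PTime.filter (f := fun (p : γ × List Bool) (q : List Bool) =>
    CKP.revB W r d (n p.1) (U p.1) q) (hQ.comp PTime.id.snd) ?_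
  exact PTime.revB hver (hn.comp PTime.id.fst.fst) (hU.comp PTime.id.fst.fst) PTime.id.snd

theorem PTime.stepS (hver : Ver O W ℓ)
    (hphi : PTime O (fun p : π × List (Bool × ℕ) × List Bool => phi p.1 p.2.1 p.2.2))
    (hQ : PTime O Q) (hV : PTime O (fun p : List Bool × List Bool => V p.1 p.2))
    {T : γ → List (Bool × ℕ)} {N : γ → π} {n i : γ → List Unit} {U : γ → ℕ}
    {L : γ → List ℕ} (hT : PTime O T) (hN : PTime O N) (hn : PTime O n) (hi : PTime O i)
    (hU : PTime O U) (hL : PTime O L) :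
    PTime O (fun x => CKP.stepS W phi ℓ r d Q V (T x) (N x) (n x) (i x) (U x) (L x)) := by
  unfold CKP.stepS
  refine PTime.lcase (l := fun x => CKP.hitsS W r d Q (n x) (i x) (U x) (L x))
    (n := fun x => CKP.lcase (CKP.candS ℓ V (CKP.XS W phi r d Q (T x) (N x) (n x) (i x) (U x)
      (L x)) (L x)) (L x) fun a _ => CKP.rmS (L x) a.2)
    (c := fun x (q : List Bool) _ => [CKP.ushr (i x) (CKP.ent (CKP.wss q) (n x).length).2])
    (PTime.hitsS hver hQ hn hi hU hL) ?_ ?_
  · refine PTime.lcase (l := fun x => CKP.candS ℓ V (CKP.XS W phi r d Q (T x) (N x) (n x) (i x)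
      (U x) (L x)) (L x)) (n := L) (c := fun x (a : ℕ × ℕ) _ => CKP.rmS (L x) a.2)
      (PTime.candS hver.hl hV (PTime.XS hver hphi hQ hT hN hn hi hU hL) hL) hL ?_
    exact PTime.rmS (hL.comp PTime.id.fst) PTime.id.snd.fst.snd
  · exact PTime.cons (PTime.ushr (hi.comp PTime.id.fst) (PTime.ent (PTime.wss PTime.id.snd.fst)
      (hn.comp PTime.id.fst)).snd) (PTime.const [])

/-- the sizes during the fold; without assumptions on `L` and `i` -/
theorem stepS_mem' (hver : Ver O W ℓ) {T : List (Bool × ℕ)} {N : π} {n i : List Unit} {U : ℕ}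
    {L : List ℕ} {a : ℕ} (ha : a ∈ stepS W phi ℓ r d Q V T N n i U L) :
    a ∈ L ∨ a < 2 ^ ℓ n.length := by
  unfold stepS at ha
  cases hh : hitsS W r d Q n i U L with
  | cons q t =>
    rw [hh, lcase_cons, List.mem_singleton] at ha
    have hq : q ∈ hitsS W r d Q n i U L := by rw [hh]; exact List.mem_cons_self
    unfold hitsS at hq
    obtain ⟨z, _, hz⟩ := List.mem_flatMap.mp hq
    obtain ⟨h1, hWn⟩ := revB_spec (List.mem_filter.mp hz).2
    right
    rw [ha, ushr_eq]
    exact lt_of_le_of_lt (Nat.div_le_self _ _) (hver.hb _ _ hWn)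
  | nil =>
    rw [hh, lcase_nil] at ha
    left
    cases hcand : candS ℓ V (XS W phi r d Q T N n i U L) L with
    | nil => rw [hcand, lcase_nil] at ha; exact ha
    | cons b t =>
      rw [hcand, lcase_cons] at ha
      exact (rmS_sublist L b.2).subset ha

theorem foldS_mem' (hver : Ver O W ℓ) {T : List (Bool × ℕ)} {N : π} {n i : List Unit} {U : ℕ} :
    ∀ (l L : List ℕ) (a : ℕ), a ∈ l.foldl (fun L' _ => stepS W phi ℓ r d Q V T N n i U L') L →
      a ∈ L ∨ a < 2 ^ ℓ n.length := by
  intro l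
  induction l with
  | nil => intro L a ha; exact Or.inl ha
  | cons b t ih =>
    intro L a ha
    rw [List.foldl_cons] at ha
    rcases ih _ a ha with h | h
    · exact stepS_mem' hver h
    · exact Or.inr h

theorem PTime.pruneS (hver : Ver O W ℓ)
    (hphi : PTime O (fun p : π × List (Bool × ℕ) × List Bool => phi p.1 p.2.1 p.2.2))
    (hQ : PTime O Q) (hV : PTime O (fun p : List Bool × List Bool => V p.1 p.2))
    {T : γ → List (Bool × ℕ)} {N : γ → π} {n i : γ → List Unit} {U : γ → ℕ}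
    {L : γ → List ℕ} (hT : PTime O T) (hN : PTime O N) (hn : PTime O n) (hi : PTime O i)
    (hU : PTime O U) (hL : PTime O L) :
    PTime O (fun x => CKP.pruneS W phi ℓ r d Q V (T x) (N x) (n x) (i x) (U x) (L x)) := by
  obtain ⟨PL, hPL⟩ := hL.size_le
  obtain ⟨Pl, hPl⟩ := hver.hl.bound
  obtain ⟨Pn, hPn⟩ := hn.size_le
  unfold CKP.pruneS
  refine PTime.foldl (l := L) (i := L) (s := fun x L' _ =>
    CKP.stepS W phi ℓ r d Q V (T x) (N x) (n x) (i x) (U x) L') hL hL ?_
    (PL * (PL + 4 * Pl.comp Pn + 2) + 1) ?_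
  · exact PTime.stepS hver hphi hQ hV (hT.comp PTime.id.fst) (hN.comp PTime.id.fst)
      (hn.comp PTime.id.fst) (hi.comp PTime.id.fst) (hU.comp PTime.id.fst) PTime.id.snd.fst
  · intro x l' _
    have hlen : (n x).length ≤ Pn.eval (sz x) := (length_le_sz _).trans (hPn x)
    have h5 : ℓ (n x).length ≤ Pl.eval (Pn.eval (sz x)) := (hPl _).trans (poly_mono Pl hlen)
    have h7 := sz_list_le (s := PL.eval (sz x) + 4 * Pl.eval (Pn.eval (sz x)) + 1)
      (l'.foldl (fun L' _ => CKP.stepS W phi ℓ r d Q V (T x) (N x) (n x) (i x) (U x) L') (L x)) (by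
      intro c hc
      rcases foldS_mem' hver _ _ _ hc with h8 | h8
      · have h9 := (sz_le_of_mem h8).trans (hPL x)
        omega
      · have h9 := sz_nat_le_of_lt h8
        omega)
    have h8 : (l'.foldl (fun L' _ => CKP.stepS W phi ℓ r d Q V (T x) (N x) (n x) (i x) (U x) L')
        (L x)).length ≤ PL.eval (sz x) :=
      (foldS_length l' (L x)).trans ((length_le_sz _).trans (hPL x))
    have h9 := Nat.mul_le_mul h8 (le_refl (PL.eval (sz x) + 4 * Pl.eval (Pn.eval (sz x)) + 2))
    rw [show PL.eval (sz x) + 4 * Pl.eval (Pn.eval (sz x)) + 1 + 1 =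
      PL.eval (sz x) + 4 * Pl.eval (Pn.eval (sz x)) + 2 from rfl] at h7
    simp only [Polynomial.eval_add, Polynomial.eval_mul, Polynomial.eval_ofNat,
      Polynomial.eval_one, Polynomial.eval_comp]
    omega

theorem PTime.levelS (hver : Ver O W ℓ)
    (hphi : PTime O (fun p : π × List (Bool × ℕ) × List Bool => phi p.1 p.2.1 p.2.2))
    (hQ : PTime O Q) (hV : PTime O (fun p : List Bool × List Bool => V p.1 p.2))
    {T : γ → List (Bool × ℕ)} {N : γ → π} {n : γ → List Unit} {U : γ → ℕ}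
    {st : γ → List Unit × List ℕ} (hT : PTime O T) (hN : PTime O N) (hn : PTime O n)
    (hU : PTime O U) (hst : PTime O st) :
    PTime O (fun x => CKP.levelS W phi ℓ r d Q V (T x) (N x) (n x) (U x) (st x)) := by
  unfold CKP.levelS
  have hi : PTime O (fun x => (st x).1.tail) := PTime.tail hst.fst
  exact hi.pair (PTime.pruneS hver hphi hQ hV hT hN hn hi hU (PTime.children hst.snd))

theorem PTime.searchS (hver : Ver O W ℓ)
    (hphi : PTime O (fun p : π × List (Bool × ℕ) × List Bool => phi p.1 p.2.1 p.2.2))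
    (hQ : PTime O Q) (hV : PTime O (fun p : List Bool × List Bool => V p.1 p.2)) {B : ℕ → ℕ}
    (hBu : UPoly O B) (hB : FewS ℓ Q V B) (hB2 : ∀ n, 2 ≤ B n)
    {T : γ → List (Bool × ℕ)} {N : γ → π} {n : γ → List Unit} {U : γ → ℕ}
    (hT : PTime O T) (hN : PTime O N) (hn : PTime O n) (hU : PTime O U) :
    PTime O (fun x => CKP.searchS W phi ℓ r d Q V (T x) (N x) (n x) (U x)) := by
  obtain ⟨Pl, hPl⟩ := hver.hl.bound
  obtain ⟨PM, hPM⟩ := hBu.bound
  obtain ⟨Pn, hPn⟩ := hn.size_le
  have hC : PTime O (fun x => CKP.capB ℓ (n x) (U x)) := PTime.capB hver.hl hn hU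
  unfold CKP.searchS CKP.srchS
  refine PTime.hit hver hn hC (PTime.snd ?_)
  refine PTime.foldl (l := fun x => List.replicate (ℓ (n x).length) ())
    (i := fun x => (List.replicate (ℓ (n x).length) (), [0]))
    (s := fun x st _ => CKP.levelS W phi ℓ r d Q V (T x) (N x) (n x)
      (CKP.capB ℓ (n x) (U x)) st) (hver.hl.comp hn)
    ((hver.hl.comp hn).pair (PTime.const [0])) ?_
    (2 * Pl.comp Pn + 2 + ((PM.comp Pn + 1) * (4 * Pl.comp Pn + 2) + 1)) ?_
  · exact PTime.levelS hver hphi hQ hV (hT.comp PTime.id.fst) (hN.comp PTime.id.fst)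
      (hn.comp PTime.id.fst) (hC.comp PTime.id.fst) PTime.id.snd.fst
  · intro x l' hl'
    obtain ⟨j, hj⟩ : ∃ j, ℓ (n x).length = j + l'.length := by
      have := hl'.length_le
      rw [List.length_replicate] at this
      exact ⟨ℓ (n x).length - l'.length, by omega⟩
    have h1 := foldLS_size (phi := phi) (r := r) (d := d) hver hB hB2 (T x) (N x)
      (n x) (CKP.capB ℓ (n x) (U x)) (capB_le _ _) l'.length j hj.symm
    rw [← units_eq l'] at h1
    obtain ⟨h2, h3, h4⟩ := h1
    generalize l'.foldl (fun st _ => CKP.levelS W phi ℓ r d Q V (T x) (N x) (n x)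
      (CKP.capB ℓ (n x) (U x)) st) (List.replicate (ℓ (n x).length) (), [0]) = st at h2 h3 h4
    obtain ⟨s1, s2⟩ := st
    simp only at h2 h3 h4
    subst h2
    rw [sz_pair, sz_units, List.length_replicate]
    have hlen : (n x).length ≤ Pn.eval (sz x) := (length_le_sz _).trans (hPn x)
    have h5 : ℓ (n x).length ≤ Pl.eval (Pn.eval (sz x)) := (hPl _).trans (poly_mono Pl hlen)
    have h6 : B (n x).length ≤ PM.eval (Pn.eval (sz x)) :=
      (hPM _).trans (poly_mono PM hlen)
    have h7 := sz_list_le (s := 4 * Pl.eval (Pn.eval (sz x)) + 1) s2 (by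
      intro c hc
      have h8 := sz_nat_le_of_lt (h3 c hc)
      omega)
    have h9 : s2.length * (4 * Pl.eval (Pn.eval (sz x)) + 1 + 1) ≤
        (PM.eval (Pn.eval (sz x)) + 1) * (4 * Pl.eval (Pn.eval (sz x)) + 2) :=
      Nat.mul_le_mul (by omega) (by omega)
    simp only [Polynomial.eval_add, Polynomial.eval_mul, Polynomial.eval_ofNat,
      Polynomial.eval_one, Polynomial.eval_comp]
    omega

theorem PTime.leastS (hver : Ver O W ℓ)
    (hphi : PTime O (fun p : π × List (Bool × ℕ) × List Bool => phi p.1 p.2.1 p.2.2))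
    (hQ : PTime O Q) (hV : PTime O (fun p : List Bool × List Bool => V p.1 p.2)) {B : ℕ → ℕ}
    (hBu : UPoly O B) (hB : FewS ℓ Q V B) (hB2 : ∀ n, 2 ≤ B n)
    {T : γ → List (Bool × ℕ)} {N : γ → π} {n : γ → List Unit}
    (hT : PTime O T) (hN : PTime O N) (hn : PTime O n) :
    PTime O (fun x => CKP.leastS W phi ℓ r d Q V (T x) (N x) (n x)) := by
  unfold CKP.leastS
  exact PTime.gfind (g := fun x U =>
    CKP.searchS W phi ℓ r d Q V (T x) (N x) (n x) U)
    (hver.hl.comp hn) (PTime.searchS hver hphi hQ hV hBu hB hB2 (hT.comp PTime.id.fst)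
      (hN.comp PTime.id.fst) (hn.comp PTime.id.fst) PTime.id.snd)

theorem PTime.tableS (hver : Ver O W ℓ)
    (hphi : PTime O (fun p : π × List (Bool × ℕ) × List Bool => phi p.1 p.2.1 p.2.2))
    (hQ : PTime O Q) (hV : PTime O (fun p : List Bool × List Bool => V p.1 p.2)) {B : ℕ → ℕ}
    (hBu : UPoly O B) (hB : FewS ℓ Q V B) (hB2 : ∀ n, 2 ≤ B n) {N : γ → π} {n : γ → List Unit}
    (hN : PTime O N) (hn : PTime O n) :
    PTime O (fun x => CKP.tableS W phi ℓ r d Q V (N x) (n x)) := by
  obtain ⟨Pl, hPl⟩ := hver.hl.bound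
  obtain ⟨Pn, hPn⟩ := hn.size_le
  unfold CKP.tableS
  refine PTime.foldl (l := n) (i := fun _ => ([] : List (Bool × ℕ)))
    (s := fun x T _ => T ++ [CKP.leastS W phi ℓ r d Q V T (N x) (CKP.ulen T)]) hn
    (PTime.const _) ?_ (Pn * (4 * Pl.comp Pn + 6) + 1) ?_
  · exact PTime.append PTime.id.snd.fst (PTime.cons (PTime.leastS hver hphi hQ hV hBu hB hB2
      PTime.id.snd.fst (hN.comp PTime.id.fst) (PTime.ulen PTime.id.snd.fst)) (PTime.const []))
  · intro x l' hl'
    rw [units_eq l']
    have hlen : l'.length ≤ Pn.eval (sz x) :=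
      (hl'.length_le.trans (length_le_sz _)).trans (hPn x)
    have h1 := tableS_length (W := W) (phi := phi) (ℓ := ℓ) (r := r) (d := d)
      (Q := Q) (V := V) (N x) l'.length
    have h2 : ∀ c ∈ CKP.tableS W phi ℓ r d Q V (N x) (List.replicate l'.length ()),
        sz c ≤ 4 * Pl.eval (Pn.eval (sz x)) + 5 := by
      intro c hc
      obtain ⟨i, hi, rfl⟩ := List.getElem_of_mem hc
      rw [h1] at hi
      have h3 := tableS_ent (W := W) (phi := phi) (ℓ := ℓ) (r := r) (d := d)
        (Q := Q) (V := V) (N x) l'.length i hi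
      have h4 : CKP.ent (CKP.tableS W phi ℓ r d Q V (N x)
          (List.replicate l'.length ())) i = (CKP.tableS W phi ℓ r d Q V (N x)
          (List.replicate l'.length ()))[i]'(by rw [h1]; exact hi) := by
        unfold CKP.ent
        rw [List.getD_eq_getElem?_getD, List.getElem?_eq_getElem (by rw [h1]; exact hi),
          Option.getD_some]
      rw [← h4, h3]
      generalize CKP.tableS W phi ℓ r d Q V (N x) (List.replicate i ()) = T
      have h5 := gfind_lt (CKP.searchS W phi ℓ r d Q V T (N x)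
        (List.replicate i ())) (ℓ i)
      have h6 := sz_nat_le_of_lt h5
      have h7 := (num_bool_sz (CKP.leastS W phi ℓ r d Q V T (N x)
        (List.replicate i ())).1).2
      have h8 : sz (CKP.leastS W phi ℓ r d Q V T (N x) (List.replicate i ())) =
        sz (CKP.leastS W phi ℓ r d Q V T (N x) (List.replicate i ())).1 +
        sz (CKP.leastS W phi ℓ r d Q V T (N x) (List.replicate i ())).2 + 1 := rfl
      have h9 : ℓ i ≤ Pl.eval (Pn.eval (sz x)) := (hPl i).trans (poly_mono Pl (by omega))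
      have h10 : (CKP.leastS W phi ℓ r d Q V T (N x) (List.replicate i ())).2 =
        (CKP.gfind (CKP.searchS W phi ℓ r d Q V T (N x) (List.replicate i ()))
          (List.replicate (ℓ i) ())).2 := by
        unfold CKP.leastS
        rw [List.length_replicate]
      rw [← h10] at h6
      omega
    have h3 := sz_list_le _ h2
    rw [h1] at h3
    have h4 : l'.length * (4 * Pl.eval (Pn.eval (sz x)) + 5 + 1) ≤
        Pn.eval (sz x) * (4 * Pl.eval (Pn.eval (sz x)) + 6) := Nat.mul_le_mul hlen le_rfl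
    simp only [Polynomial.eval_add, Polynomial.eval_mul, Polynomial.eval_ofNat,
      Polynomial.eval_one, Polynomial.eval_comp]
    refine le_trans h3 ?_
    omega

end Pool.Agent.CKP
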