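import Pool.Agent.Lib_helper74.KY.F.Few

/-!
# The search for truth-table reductions with few alternations: levels and tables (MP_675993_lc)
-/

set_option autoImplicit false
set_option linter.unusedSectionVars false
set_option linter.unusedVariables false

namespace Pool.Agent.CKP

open Pool.Agent.CK

variable {O : Lang} {π : Type} {W : ℕ → ℕ → Bool}
  {phi : π → List (Bool × ℕ) → List Bool → Bool} {ℓ : ℕ → ℕ} {r d : ℕ}
  {Q : List Bool → List (List Bool)} {V : List Bool → List Bool → Bool}

/-! ### sizes -/

theorem hitsS_nil (n i : List Unit) (U : ℕ) : hitsS W r d Q n i U [] = [] := by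
  unfold hitsS insS kS
  simp [rangeU, downU]

theorem stepS_length (T : List (Bool × ℕ)) (N : π) (n i : List Unit) (U : ℕ) (L : List ℕ) :
    (stepS W phi ℓ r d Q V T N n i U L).length ≤ L.length := by
  unfold stepS
  cases hh : hitsS W r d Q n i U L with
  | cons q t =>
    rw [lcase_cons]
    cases L with
    | nil => rw [hitsS_nil] at hh; simp at hh
    | cons a l => simp
  | nil =>
    rw [lcase_nil]
    cases hcand : candS ℓ V (XS W phi r d Q T N n i U L) L with
    | nil => rw [lcase_nil]
    | cons a t =>
      rw [lcase_cons]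
      exact (rmS_sublist L a.2).length_le

theorem stepS_mem (hver : Ver O W ℓ) {T : List (Bool × ℕ)} {N : π} {n i : List Unit} {U : ℕ}
    {L : List ℕ} (hi : i.length ≤ ℓ n.length) {a : ℕ}
    (ha : a ∈ stepS W phi ℓ r d Q V T N n i U L) : a ∈ L ∨ a < 2 ^ (ℓ n.length - i.length) := by
  unfold stepS at ha
  cases hh : hitsS W r d Q n i U L with
  | cons q t =>
    rw [hh, lcase_cons, List.mem_singleton] at ha
    have hq : q ∈ hitsS W r d Q n i U L := by rw [hh]; exact List.mem_cons_self
    unfold hitsS at hq
    obtain ⟨z, _, hz⟩ := List.mem_flatMap.mp hq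
    obtain ⟨h1, hWn⟩ := revB_spec (List.mem_filter.mp hz).2
    right
    rw [ha, ushr_eq]
    have h1 := hver.hb _ _ hWn
    apply Nat.div_lt_of_lt_mul
    rw [← pow_add]
    rwa [Nat.add_sub_cancel' hi]
  | nil =>
    rw [hh, lcase_nil] at ha
    left
    cases hcand : candS ℓ V (XS W phi r d Q T N n i U L) L with
    | nil => rw [hcand, lcase_nil] at ha; exact ha
    | cons b t =>
      rw [hcand, lcase_cons] at ha
      exact (rmS_sublist L b.2).subset ha

theorem stepS_len {B : ℕ → ℕ} (hB : FewS ℓ Q V B) (hB2 : ∀ n, 2 ≤ B n) {T : List (Bool × ℕ)}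
    {N : π} {n i : List Unit} {U : ℕ} {L : List ℕ} (hi : i.length ≤ ℓ n.length)
    (hL : ∀ a ∈ L, a < 2 ^ ℓ n.length) (hU : U ≤ 2 ^ ℓ n.length) (hlen : B n.length ≤ L.length) :
    (stepS W phi ℓ r d Q V T N n i U L).length + 1 ≤ L.length := by
  have h2 := hB2 n.length
  unfold stepS
  cases hh : hitsS W r d Q n i U L with
  | cons q t =>
    rw [lcase_cons, List.length_singleton]
    omega
  | nil =>
    rw [lcase_nil]
    obtain ⟨j, hj, hne⟩ := hB n i L U hi hL hU hlen fun q => evS W phi r d T N n q
    have hmem : (L[j], j) ∈ candS ℓ V (XS W phi r d Q T N n i U L) L := by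
      unfold candS
      refine List.mem_filter.mpr ⟨List.mk_mem_zipIdx_iff_getElem?.mpr
        (List.getElem?_eq_getElem hj), ?_⟩
      rw [List.all_eq_true]
      intro p hp
      rw [Bool.not_eq_true']
      by_contra hcon
      rw [Bool.not_eq_false, eqB_iff] at hcon
      exact hne p hp hcon
    cases hcand : candS ℓ V (XS W phi r d Q T N n i U L) L with
    | nil => rw [hcand] at hmem; simp at hmem
    | cons b t =>
      rw [lcase_cons]
      obtain ⟨b1, b2⟩ := b
      have hb : (b1, b2) ∈ candS ℓ V (XS W phi r d Q T N n i U L) L := by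
        rw [hcand]; exact List.mem_cons_self
      unfold candS at hb
      have h3 := List.mk_mem_zipIdx_iff_getElem?.mp (List.mem_filter.mp hb).1
      exact rmS_length (List.getElem?_eq_some_iff.mp h3).1

theorem foldS_mem (hver : Ver O W ℓ) {T : List (Bool × ℕ)} {N : π} {n i : List Unit} {U : ℕ}
    (hi : i.length ≤ ℓ n.length) :
    ∀ (l L : List ℕ) (a : ℕ), a ∈ l.foldl (fun L' _ => stepS W phi ℓ r d Q V T N n i U L') L →
      a ∈ L ∨ a < 2 ^ (ℓ n.length - i.length) := by
  intro l
  induction l with
  | nil => intro L a ha; exact Or.inl ha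
  | cons b t ih =>
    intro L a ha
    rw [List.foldl_cons] at ha
    rcases ih _ a ha with h | h
    · exact stepS_mem hver hi h
    · exact Or.inr h

theorem foldS_length {T : List (Bool × ℕ)} {N : π} {n i : List Unit} {U : ℕ} :
    ∀ (l L : List ℕ), (l.foldl (fun L' _ => stepS W phi ℓ r d Q V T N n i U L') L).length ≤
      L.length := by
  intro l
  induction l with
  | nil => intro L; exact le_rfl
  | cons b t ih =>
    intro L
    rw [List.foldl_cons]
    exact (ih _).trans (stepS_length T N n i U L)

theorem foldS_len (hver : Ver O W ℓ) {B : ℕ → ℕ} (hB : FewS ℓ Q V B) (hB2 : ∀ n, 2 ≤ B n)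
    {T : List (Bool × ℕ)} {N : π} {n i : List Unit} {U : ℕ} (hi : i.length ≤ ℓ n.length)
    (hU : U ≤ 2 ^ ℓ n.length) :
    ∀ (l L : List ℕ), (∀ a ∈ L, a < 2 ^ ℓ n.length) →
      (l.foldl (fun L' _ => stepS W phi ℓ r d Q V T N n i U L') L).length + l.length ≤
        L.length ∨
      (l.foldl (fun L' _ => stepS W phi ℓ r d Q V T N n i U L') L).length ≤ B n.length := by
  intro l
  induction l with
  | nil => intro L _; left; simp
  | cons a t ih =>
    intro L hL
    rw [List.foldl_cons, List.length_cons]
    by_cases hlen : B n.length ≤ L.length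
    · have h1 := stepS_len (W := W) (phi := phi) (r := r) (d := d) (T := T) (N := N)
        hB hB2 hi hL hU hlen
      rcases ih (stepS W phi ℓ r d Q V T N n i U L) (fun b hb => by
        rcases stepS_mem hver hi hb with h | h
        · exact hL b h
        · exact lt_of_lt_of_le h (Nat.pow_le_pow_right (by norm_num) (Nat.sub_le _ _))) with h2 | h2
      · left; omega
      · right; exact h2
    · right
      have h1 := foldS_length (W := W) (phi := phi) (ℓ := ℓ) (r := r) (d := d) (Q := Q) (V := V)
        (T := T) (N := N) (n := n) (i := i) (U := U) t (stepS W phi ℓ r d Q V T N n i U L)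
      have h2 := stepS_length (W := W) (phi := phi) (ℓ := ℓ) (r := r) (d := d) (Q := Q) (V := V)
        T N n i U L
      omega

/-- the invariant on the sizes of the nodes -/
def SInvS (L Mn i : ℕ) (l : List ℕ) : Prop := (∀ a ∈ l, a < 2 ^ (L - i)) ∧ l.length ≤ Mn

theorem levelS_size (hver : Ver O W ℓ) {B : ℕ → ℕ} (hB : FewS ℓ Q V B) (hB2 : ∀ n, 2 ≤ B n)
    (T : List (Bool × ℕ)) (N : π) (n : List Unit) (U : ℕ) (hU : U ≤ 2 ^ ℓ n.length)
    (st : List Unit) (l : List ℕ) (hs : st ≠ []) (hsl : st.length ≤ ℓ n.length)
    (h : ∀ a ∈ l, a < 2 ^ (ℓ n.length - st.length)) :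
    SInvS (ℓ n.length) (B n.length) st.tail.length
      (levelS W phi ℓ r d Q V T N n U (st, l)).2 := by
  obtain ⟨u, st', rfl⟩ := List.exists_cons_of_ne_nil hs
  rw [List.length_cons] at hsl h
  have hch : ∀ b ∈ children l, b < 2 ^ (ℓ n.length - st'.length) := by
    intro b hb
    have h1 := h _ (mem_children.mp hb)
    have h2 : ℓ n.length - st'.length = (ℓ n.length - (st'.length + 1)) + 1 := by omega
    rw [h2, pow_succ]
    omega
  have hch' : ∀ b ∈ children l, b < 2 ^ ℓ n.length := fun b hb =>
    lt_of_lt_of_le (hch b hb) (Nat.pow_le_pow_right (by norm_num) (Nat.sub_le _ _))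
  unfold levelS pruneS
  simp only [List.tail_cons]
  refine ⟨fun a ha => ?_, ?_⟩
  · rcases foldS_mem hver (by omega) _ _ a ha with h1 | h1
    · exact hch a h1
    · exact h1
  · rcases foldS_len (W := W) (phi := phi) (r := r) (d := d) (T := T) (N := N) hver hB hB2
      (i := st') (by omega) hU (children l) (children l) hch' with h1 | h1
    · omega
    · omega

theorem levelS_inv {T : List (Bool × ℕ)} {N : π} {n : List Unit} {U : ℕ}
    (hc : CtxS O W ℓ phi r d Q V T N n U) (st : List Unit) (l : List ℕ) (hs : st ≠ [])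
    (hinv : ∃ a ∈ l, SN W n.length st.length a U) :
    ∃ a ∈ (levelS W phi ℓ r d Q V T N n U (st, l)).2, SN W n.length st.tail.length a U := by
  obtain ⟨u, st', rfl⟩ := List.exists_cons_of_ne_nil hs
  rw [List.length_cons] at hinv
  obtain ⟨a, ha, v, hv, hvU, hWv⟩ := hinv
  have hbc : v / 2 ^ st'.length ∈ children l := by
    rw [mem_children, Nat.div_div_eq_div_mul, ← pow_succ, hv]
    exact ha
  unfold levelS pruneS
  simp only [List.tail_cons]
  exact foldS_sound hc _ _ ⟨_, hbc, v, rfl, hvU, hWv⟩

/-- the sizes during the fold of the levels -/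
theorem foldLS_size (hver : Ver O W ℓ) {B : ℕ → ℕ} (hB : FewS ℓ Q V B) (hB2 : ∀ n, 2 ≤ B n)
    (T : List (Bool × ℕ)) (N : π) (n : List Unit) (U : ℕ) (hU : U ≤ 2 ^ ℓ n.length) :
    ∀ j i : ℕ, i + j = ℓ n.length →
      ((List.replicate j ()).foldl (fun st _ => levelS W phi ℓ r d Q V T N n U st)
        (List.replicate (ℓ n.length) (), [0])).1 = List.replicate i () ∧
      SInvS (ℓ n.length) (B n.length) i
        ((List.replicate j ()).foldl (fun st _ => levelS W phi ℓ r d Q V T N n U st)
          (List.replicate (ℓ n.length) (), [0])).2 := by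
  intro j
  induction j with
  | zero =>
    intro i hi
    simp only [List.replicate_zero, List.foldl_nil]
    have : i = ℓ n.length := by omega
    subst this
    refine ⟨rfl, ?_, ?_⟩
    · intro a ha
      simp only [List.mem_singleton] at ha
      rw [ha]
      positivity
    · have := hB2 n.length
      rw [List.length_singleton]
      omega
  | succ j ih =>
    intro i hi
    obtain ⟨h1, h2⟩ := ih (i + 1) (by omega)
    rw [List.replicate_succ', List.foldl_append]
    simp only [List.foldl_cons, List.foldl_nil]
    generalize (List.replicate j ()).foldl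
      (fun st _ => levelS W phi ℓ r d Q V T N n U st)
        (List.replicate (ℓ n.length) (), [0]) = st at h1 h2
    obtain ⟨s1, s2⟩ := st
    simp only at h1 h2
    subst h1
    refine ⟨by unfold levelS; simp [List.replicate_succ], ?_⟩
    have := levelS_size (phi := phi) (r := r) (d := d) hver hB hB2 T N n U hU
      (List.replicate (i + 1) ()) s2 (by simp [List.replicate_succ]) (by simp; omega)
      (by simpa using h2.1)
    simpa using this

/-! ### the search -/

theorem srchS_spec (hver : Ver O W ℓ) (hcut : Cut W ℓ) {B : ℕ → ℕ} (hB : FewS ℓ Q V B)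
    (hB2 : ∀ n, 2 ≤ B n) {T : List (Bool × ℕ)} {N : π}
    {n : List Unit} {U : ℕ} (hU : U ≤ 2 ^ ℓ n.length)
    (hQV : ∀ z, ZLs W z = V z ((Q z).map (CL O W r d)))
    (hT : ∀ j < n.length, LeastSpec W j (ent T j))
    (hphi : ∀ q, typ q = true → valid W r d q = true → (wss q).length ≤ n.length →
      phi N T (xx q) = UK O (xx q)) :
    srchS W phi ℓ r d Q V T N n U = true ↔ ∃ v < U, W n.length v = true := by
  unfold srchS
  rw [hit_iff]
  refine ⟨fun ⟨a, _, h1, h2⟩ => ⟨a, h1, h2⟩, fun hex => ?_⟩
  have hc : CtxS O W ℓ phi r d Q V T N n U := ⟨hcut, hQV, hT, hphi, hex⟩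
  have key : ∀ j i : ℕ, i + j = ℓ n.length →
      ∃ a ∈ ((List.replicate j ()).foldl
        (fun st _ => levelS W phi ℓ r d Q V T N n U st)
        (List.replicate (ℓ n.length) (), [0])).2, SN W n.length i a U := by
    intro j
    induction j with
    | zero =>
      intro i hi
      obtain ⟨v, hvU, hv⟩ := hex
      refine ⟨0, by simp, v, ?_, hvU, hv⟩
      have : i = ℓ n.length := by omega
      rw [this]
      exact Nat.div_eq_of_lt (hver.hb _ _ hv)
    | succ j ih =>
      intro i hi
      obtain ⟨g1, g2⟩ := foldLS_size (phi := phi) (r := r) (d := d) hver hB hB2 T N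
        n U hU j (i + 1) (by omega)
      have g3 := ih (i + 1) (by omega)
      rw [List.replicate_succ', List.foldl_append]
      simp only [List.foldl_cons, List.foldl_nil]
      generalize (List.replicate j ()).foldl
        (fun st _ => levelS W phi ℓ r d Q V T N n U st)
          (List.replicate (ℓ n.length) (), [0]) = st at g1 g2 g3
      obtain ⟨s1, s2⟩ := st
      simp only at g1 g2 g3
      subst g1
      have := levelS_inv hc (List.replicate (i + 1) ()) s2
        (by simp [List.replicate_succ]) (by simpa using g3)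
      simpa using this
  obtain ⟨a, ha, v, hv, hvU, hWv⟩ := key (ℓ n.length) 0 (by simp)
  rw [pow_zero, Nat.div_one] at hv
  subst hv
  exact ⟨v, ha, hvU, hWv⟩

theorem leastS_spec (hver : Ver O W ℓ) (hcut : Cut W ℓ) {B : ℕ → ℕ} (hB : FewS ℓ Q V B)
    (hB2 : ∀ n, 2 ≤ B n) {T : List (Bool × ℕ)} {N : π} {n : List Unit}
    (hQV : ∀ z, ZLs W z = V z ((Q z).map (CL O W r d)))
    (hT : ∀ j < n.length, LeastSpec W j (ent T j))
    (hphi : ∀ q, typ q = true → valid W r d q = true → (wss q).length ≤ n.length →
      phi N T (xx q) = UK O (xx q)) :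
    LeastSpec W n.length (leastS W phi ℓ r d Q V T N n) := by
  unfold leastS
  obtain ⟨h1, h2, _⟩ := gfind_spec (P := fun v => W n.length v = true) (L := ℓ n.length)
    (g := searchS W phi ℓ r d Q V T N n)
    (fun t ht => by
      unfold searchS
      rw [capB_eq ht]
      exact srchS_spec hver hcut hB hB2 ht hQV hT hphi) (hver.hb n.length)
  exact ⟨h1, h2⟩

/-! ### the table -/

theorem tableS_succ (N : π) (n : ℕ) :
    tableS W phi ℓ r d Q V N (List.replicate (n + 1) ()) =
      tableS W phi ℓ r d Q V N (List.replicate n ()) ++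
        [leastS W phi ℓ r d Q V (tableS W phi ℓ r d Q V N (List.replicate n ())) N
          (ulen (tableS W phi ℓ r d Q V N (List.replicate n ())))] := by
  unfold tableS
  rw [List.replicate_succ', List.foldl_append]
  rfl

theorem tableS_length (N : π) (n : ℕ) :
    (tableS W phi ℓ r d Q V N (List.replicate n ())).length = n := by
  induction n with
  | zero => rfl
  | succ n ih => rw [tableS_succ, List.length_append, ih]; rfl

theorem tableS_ent (N : π) (n j : ℕ) (hj : j < n) :
    ent (tableS W phi ℓ r d Q V N (List.replicate n ())) j =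
      leastS W phi ℓ r d Q V (tableS W phi ℓ r d Q V N (List.replicate j ())) N
        (List.replicate j ()) := by
  induction n with
  | zero => omega
  | succ n ih =>
    rw [tableS_succ]
    rcases Nat.lt_succ_iff_lt_or_eq.mp hj with h | h
    · rw [← ih h]
      unfold ent
      rw [List.getD_append _ _ _ _ (by rw [tableS_length]; exact h)]
    · subst h
      unfold ent
      rw [List.getD_append_right _ _ _ _ (by rw [tableS_length]), tableS_length]
      simp only [Nat.sub_self, List.getD_cons_zero]
      rw [ulen_eq, tableS_length]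

theorem tableS_spec (hver : Ver O W ℓ) (hcut : Cut W ℓ) {B : ℕ → ℕ} (hB : FewS ℓ Q V B)
    (hB2 : ∀ n, 2 ≤ B n) {N : π} {n0 : ℕ}
    (hQV : ∀ z, ZLs W z = V z ((Q z).map (CL O W r d)))
    (hphi : ∀ (T : List (Bool × ℕ)) (y : List Bool), T.length < n0 →
      (∀ i < T.length, LeastSpec W i (ent T i)) → y.length ^ r ≤ T.length →
      phi N T y = UK O y) :
    ∀ n ≤ n0, ∀ i < n, LeastSpec W i
      (ent (tableS W phi ℓ r d Q V N (List.replicate n ())) i) := by
  have key : ∀ n < n0, LeastSpec W n (leastS W phi ℓ r d Q V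
      (tableS W phi ℓ r d Q V N (List.replicate n ())) N (List.replicate n ())) := by
    intro n
    induction n using Nat.strong_induction_on with
    | _ n ih =>
      intro hn
      have hT : ∀ j < n, LeastSpec W j
          (ent (tableS W phi ℓ r d Q V N (List.replicate n ())) j) := by
        intro j hj
        rw [tableS_ent N n j hj]
        exact ih j hj (by omega)
      have hl := tableS_length (W := W) (phi := phi) (ℓ := ℓ) (r := r) (d := d)
        (Q := Q) (V := V) N n
      have := leastS_spec (phi := phi) (N := N) (n := List.replicate n ()) (r := r) (d := d)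
        (T := tableS W phi ℓ r d Q V N (List.replicate n ())) hver hcut hB hB2 hQV ?_ ?_
      · simpa using this
      · intro j hj
        rw [List.length_replicate] at hj
        exact hT j hj
      · intro q _ hv hw
        refine hphi _ _ (by omega) (fun j hj => hT j (by omega)) ?_
        unfold valid at hv
        rw [Bool.and_eq_true, Bool.and_eq_true, decide_eq_true_eq] at hv
        simp only [List.length_replicate] at hw hv ⊢
        omega
  intro n hn i hi
  rw [tableS_ent N n i hi]
  exact key i (by omega)

end Pool.Agent.CKP
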