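import Pool.Agent.Lib_helper74.KY.F.Defs

/-!
# The search for truth-table reductions with few alternations: correctness (MP_675993_lc)
-/

set_option autoImplicit false
set_option linter.unusedSectionVars false
set_option linter.unusedVariables false

namespace Pool.Agent.CKP

open Pool.Agent.CK

variable {O : Lang} {π : Type} {W : ℕ → ℕ → Bool}
  {phi : π → List (Bool × ℕ) → List Bool → Bool} {ℓ : ℕ → ℕ} {r d : ℕ}
  {Q : List Bool → List (List Bool)} {V : List Bool → List Bool → Bool}

/-! ### bits and positions -/

theorem bitS_eq (i : ℕ) (u : List Unit) : bitS i u = i.testBit u.length := by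
  unfold bitS
  rw [Nat.testBit_eq_inth]
  rfl

theorem vb_eq (ks : List Unit) (i : ℕ) : vb ks i = vecT ks.length i := by
  unfold vb vecT
  conv_lhs => rw [units_eq ks]
  rw [rangeU_replicate, List.map_map]
  refine List.map_congr_left fun j _ => ?_
  simp only [Function.comp_apply]
  rw [bitS_eq, List.length_replicate]

theorem kS_length (L : List ℕ) : (kS L).length = L.length.size := by
  unfold kS
  rw [ulen_eq, List.length_replicate, Nat.size_eq_bits_len]

theorem lt_kS (L : List ℕ) : L.length < 2 ^ (kS L).length := by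
  rw [kS_length]
  exact Nat.lt_size_self _

theorem mem_selS {L : List ℕ} {u : List Unit} {a : ℕ} :
    a ∈ selS L u ↔ ∃ i, L[i]? = some a ∧ bitS i u = true := by
  unfold selS
  rw [List.mem_map]
  constructor
  · rintro ⟨⟨b, i⟩, h, rfl⟩
    obtain ⟨h1, h2⟩ := List.mem_filter.mp h
    exact ⟨i, List.mk_mem_zipIdx_iff_getElem?.mp h1, h2⟩
  · rintro ⟨i, h1, h2⟩
    exact ⟨(a, i), List.mem_filter.mpr ⟨List.mk_mem_zipIdx_iff_getElem?.mpr h1, h2⟩, rfl⟩

theorem selS_sublist (L : List ℕ) (u : List Unit) : (selS L u).Sublist L := by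
  unfold selS
  have h := (List.filter_sublist (p := fun p => bitS p.2 u) (l := L.zipIdx)).map Prod.fst
  rwa [List.zipIdx_map_fst] at h

theorem mem_rmS {L : List ℕ} {j a : ℕ} : a ∈ rmS L j ↔ ∃ i, L[i]? = some a ∧ i ≠ j := by
  unfold rmS
  rw [List.mem_map]
  constructor
  · rintro ⟨⟨b, i⟩, h, rfl⟩
    obtain ⟨h1, h2⟩ := List.mem_filter.mp h
    exact ⟨i, List.mk_mem_zipIdx_iff_getElem?.mp h1, by simpa using h2⟩
  · rintro ⟨i, h1, h2⟩
    exact ⟨(a, i), List.mem_filter.mpr ⟨List.mk_mem_zipIdx_iff_getElem?.mpr h1, by simpa using h2⟩,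
      rfl⟩

theorem rmS_sublist (L : List ℕ) (j : ℕ) : (rmS L j).Sublist L := by
  unfold rmS
  have h := (List.filter_sublist (p := fun p => !(decide (p.2 = j))) (l := L.zipIdx)).map Prod.fst
  rwa [List.zipIdx_map_fst] at h

theorem rmS_length {L : List ℕ} {j : ℕ} (hj : j < L.length) :
    (rmS L j).length + 1 ≤ L.length := by
  unfold rmS
  rw [List.length_map]
  have h : (L.zipIdx.filter fun p => !(decide (p.2 = j))).length < L.zipIdx.length :=
    List.length_filter_lt_length_iff_exists.mpr ⟨(L[j], j),
      List.mk_mem_zipIdx_iff_getElem?.mpr (List.getElem?_eq_getElem hj), by simp⟩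
  rw [List.length_zipIdx] at h
  exact h

/-! ### thresholds -/

/-- the threshold of a code -/
noncomputable def vq (ℓ : ℕ → ℕ) (c : List Unit × ℕ) : ℝ :=
  (c.2 : ℝ) / 2 ^ ℓ c.1.tail.tail.length

theorem leS_iff {c c' : List Unit × ℕ} : leS ℓ c c' = true ↔ vq ℓ c ≤ vq ℓ c' := by
  unfold leS vq
  rw [decide_eq_true_eq, ushl_eq, ushl_eq, List.length_replicate, List.length_replicate,
    div_le_div_iff₀ (by positivity) (by positivity)]
  exact_mod_cast Iff.rfl

theorem vq_iff {c c' : List Unit × ℕ} : vq ℓ c ≤ vq ℓ c' ↔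
    c.2 * 2 ^ ℓ c'.1.tail.tail.length ≤ c'.2 * 2 ^ ℓ c.1.tail.tail.length := by
  rw [← leS_iff]
  unfold leS
  rw [decide_eq_true_eq, ushl_eq, ushl_eq, List.length_replicate, List.length_replicate]

/-- the order of the cuts -/
def ordS (ℓ : ℕ → ℕ) (p p' : List (List Unit × ℕ)) : Prop :=
  ∀ c, ansS ℓ p c = true → ansS ℓ p' c = true

theorem ordS_trans (a b c : List (List Unit × ℕ)) (h1 : ordS ℓ a b) (h2 : ordS ℓ b c) :
    ordS ℓ a c := fun x h => h2 x (h1 x h)

theorem ordS_total (p p' : List (List Unit × ℕ)) : ordS ℓ p p' ∨ ordS ℓ p' p := by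
  have key : ∀ (c0 c0' : List Unit × ℕ) (t t' : List (List Unit × ℕ)), vq ℓ c0' ≤ vq ℓ c0 →
      ordS ℓ (c0 :: t) (c0' :: t') := by
    intro c0 c0' t t' h c
    unfold ansS
    split
    · exact id
    · split
      · exact id
      · rw [lcase_cons, lcase_cons, leS_iff, leS_iff]
        exact fun h1 => h.trans h1
  cases p with
  | nil =>
    left
    intro c
    unfold ansS
    split
    · exact id
    · split
      · exact id
      · rw [lcase_nil]
        exact fun h => Bool.noConfusion h
  | cons c0 t =>
    cases p' with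
    | nil =>
      right
      intro c
      unfold ansS
      split
      · exact id
      · split
        · exact id
        · rw [lcase_nil]
          exact fun h => Bool.noConfusion h
    | cons c0' t' =>
      rcases le_total (vq ℓ c0) (vq ℓ c0') with h | h
      · exact Or.inr (key _ _ _ _ h)
      · exact Or.inl (key _ _ _ _ h)

/-- Some cut is the true one. -/
theorem exists_piv (hcut : Cut W ℓ) (X : List (List Bool × List (List Unit × ℕ))) :
    ∃ p ∈ pivS X, ∀ x ∈ X, x.2.map (ansS ℓ p) = x.2.map (ansU (tmW W)) := by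
  classical
  set C : List (List Unit × ℕ) := (X.flatMap fun x => x.2).filter fun c =>
    !c.1.isEmpty && (!c.1.tail.isEmpty && ansU (tmW W) c) with hC
  have hmem : ∀ c, c ∈ C ↔ (∃ x ∈ X, c ∈ x.2) ∧ c.1.isEmpty = false ∧ c.1.tail.isEmpty = false ∧
      tmW W c.1.tail.tail.length c.2 = true := by
    intro c
    rw [hC, List.mem_filter, List.mem_flatMap]
    simp only [Bool.and_eq_true, Bool.not_eq_true']
    constructor
    · rintro ⟨h1, h2, h3, h4⟩
      refine ⟨h1, h2, h3, ?_⟩
      unfold ansU at h4
      rwa [if_neg (by simp [h2]), if_neg (by simp [h3])] at h4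
    · rintro ⟨h1, h2, h3, h4⟩
      refine ⟨h1, h2, h3, ?_⟩
      unfold ansU
      rwa [if_neg (by simp [h2]), if_neg (by simp [h3])]
  have hpat : ∀ p : List (List Unit × ℕ), (∀ x ∈ X, ∀ c ∈ x.2, c.1.isEmpty = false →
      c.1.tail.isEmpty = false →
      (lcase p false (fun c0 _ => leS ℓ c0 c) = tmW W c.1.tail.tail.length c.2)) →
      ∀ x ∈ X, x.2.map (ansS ℓ p) = x.2.map (ansU (tmW W)) := by
    intro p hp x hx
    refine List.map_congr_left fun c hc => ?_
    unfold ansS ansU
    by_cases h1 : c.1.isEmpty = true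
    · rw [if_pos h1, if_pos h1]
    · rw [if_neg h1, if_neg h1]
      by_cases h2 : c.1.tail.isEmpty = true
      · rw [if_pos h2, if_pos h2]
      · rw [if_neg h2, if_neg h2]
        exact hp x hx c hc (by simpa using h1) (by simpa using h2)
  by_cases hne : C = []
  · refine ⟨[], List.mem_cons_self, hpat _ ?_⟩
    intro x hx c hc h1 h2
    rw [lcase_nil]
    by_contra hcon
    have h3 : c ∈ C := (hmem c).mpr ⟨⟨x, hx, hc⟩, h1, h2, by
      cases h : tmW W c.1.tail.tail.length c.2
      · exact absurd h.symm hcon
      · rfl⟩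
    rw [hne] at h3
    simp at h3
  · have hF : C.toFinset.Nonempty := by
      rw [List.toFinset_nonempty_iff]
      exact hne
    obtain ⟨c0, hc0, hmin⟩ := Finset.exists_min_image C.toFinset (vq ℓ) hF
    rw [List.mem_toFinset] at hc0
    obtain ⟨⟨x0, hx0, hcx0⟩, g1, g2, g3⟩ := (hmem c0).mp hc0
    refine ⟨[c0], ?_, hpat _ ?_⟩
    · unfold pivS
      refine List.mem_cons_of_mem _ (List.mem_flatMap.mpr ⟨x0, hx0, ?_⟩)
      exact List.mem_map_of_mem (f := fun c => [c]) hcx0
    · intro x hx c hc h1 h2
      rw [lcase_cons, Bool.eq_iff_iff, leS_iff]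
      constructor
      · intro h3
        exact hcut _ _ _ _ (vq_iff.mp h3) g3
      · intro h3
        exact hmin c (List.mem_toFinset.mpr ((hmem c).mpr ⟨⟨x, hx, hc⟩, h1, h2, h3⟩))

/-! ### codes of queries -/

theorem evS_spec {T : List (Bool × ℕ)} {N : π} {n : List Unit} {U : ℕ} {q : List Bool}
    (hT : ∀ j < n.length, LeastSpec W j (ent T j))
    (hphi : typ q = true → valid W r d q = true → (wss q).length ≤ n.length →
      phi N T (xx q) = UK O (xx q))
    (hex : ∃ v < U, W n.length v = true) (hrev : revB W r d n U q = false) :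
    CL O W r d q = ansU (tmW W) (evS W phi r d T N n q) := by
  rw [evB_spec hT hphi hex hrev]
  unfold evB evS
  by_cases h1 : typ q = true
  · rw [if_pos h1, if_pos h1]
    by_cases h2 : valid W r d q = true
    · rw [if_pos h2, if_pos h2]
      by_cases h3 : decide (n.length < (wss q).length) = true
      · rw [if_pos h3, if_pos h3]
        rfl
      · rw [if_neg h3, if_neg h3]
        by_cases h4 : (phi N T (xx q) || guardT (wss q) T) = true
        · rw [if_pos h4, if_pos h4]
          rfl
        · rw [if_neg h4, if_neg h4]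
          rfl
    · rw [if_neg h2, if_neg h2]
      rfl
  · rw [if_neg h1, if_neg h1]
    unfold ansB ansU
    rw [if_neg (by simp), if_neg (by simp), if_neg (by simp), if_neg (by simp)]
    show tmW W ((colr q).length + 2 - 2) (thr q) = tmW W (ulen (colr q)).length (thr q)
    rw [Nat.add_sub_cancel, ulen_eq, List.length_replicate]

/-- the hypotheses for one instance of the search -/
structure CtxS (O : Lang) (W : ℕ → ℕ → Bool) (ℓ : ℕ → ℕ)
    (phi : π → List (Bool × ℕ) → List Bool → Bool)
    (r d : ℕ) (Q : List Bool → List (List Bool)) (V : List Bool → List Bool → Bool)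
    (T : List (Bool × ℕ)) (N : π) (n : List Unit) (U : ℕ) : Prop where
  cut : Cut W ℓ
  hQV : ∀ z, ZLs W z = V z ((Q z).map (CL O W r d))
  hT : ∀ j < n.length, LeastSpec W j (ent T j)
  hphi : ∀ q, typ q = true → valid W r d q = true → (wss q).length ≤ n.length →
      phi N T (xx q) = UK O (xx q)
  hex : ∃ v < U, W n.length v = true

theorem stepS_sound {T : List (Bool × ℕ)} {N : π} {n i : List Unit} {U : ℕ} {L : List ℕ}
    (hc : CtxS O W ℓ phi r d Q V T N n U) (h : ∃ a ∈ L, SN W n.length i.length a U) :
    ∃ a ∈ stepS W phi ℓ r d Q V T N n i U L, SN W n.length i.length a U := by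
  unfold stepS
  cases hh : hitsS W r d Q n i U L with
  | cons q t =>
    rw [lcase_cons]
    have hq : q ∈ hitsS W r d Q n i U L := by rw [hh]; exact List.mem_cons_self
    unfold hitsS at hq
    obtain ⟨z, _, hz⟩ := List.mem_flatMap.mp hq
    obtain ⟨h1, hWn⟩ := revB_spec (List.mem_filter.mp hz).2
    exact ⟨_, List.mem_singleton_self _, _, (ushr_eq _ _).symm, h1, hWn⟩
  | nil =>
    rw [lcase_nil]
    have hrev : ∀ z ∈ insS n i U L, ∀ q ∈ Q z, revB W r d n U q = false := by
      intro z hz q hq
      by_contra hcon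
      have : q ∈ hitsS W r d Q n i U L := by
        unfold hitsS
        exact List.mem_flatMap.mpr ⟨z, hz, List.mem_filter.mpr ⟨hq, by simpa using hcon⟩⟩
      rw [hh] at this
      simp at this
    cases hcand : candS ℓ V (XS W phi r d Q T N n i U L) L with
    | nil => rw [lcase_nil]; exact h
    | cons a t =>
      rw [lcase_cons]
      obtain ⟨a1, j⟩ := a
      have hmem : (a1, j) ∈ candS ℓ V (XS W phi r d Q T N n i U L) L := by
        rw [hcand]; exact List.mem_cons_self
      unfold candS at hmem
      obtain ⟨hm1, hm2⟩ := List.mem_filter.mp hmem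
      rw [List.mk_mem_zipIdx_iff_getElem?] at hm1
      rw [List.all_eq_true] at hm2
      by_contra hcon
      push Not at hcon
      have honly : ∀ (j' : ℕ) (b : ℕ), L[j']? = some b → j' ≠ j →
          ¬ SN W n.length i.length b U := fun j' b hb hne =>
        hcon b (mem_rmS.mpr ⟨j', hb, hne⟩)
      obtain ⟨a', ha', hSN⟩ := h
      obtain ⟨j', hj', hja⟩ := List.getElem_of_mem ha'
      have hja' : L[j']? = some a' := by rw [List.getElem?_eq_getElem hj', hja]
      have hjj : j' = j := by
        by_contra hne
        exact honly j' a' hja' hne hSN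
      subst hjj
      obtain ⟨p, hp, hp2⟩ := exists_piv hc.cut (XS W phi r d Q T N n i U L)
      have h3 := hm2 p hp
      rw [Bool.not_eq_true'] at h3
      have h4 : vecS ℓ V (XS W phi r d Q T N n i U L) p = vb (kS L) j' := by
        have h5 : vecS ℓ V (XS W phi r d Q T N n i U L) p =
            (XS W phi r d Q T N n i U L).map fun x => V x.1 (x.2.map (ansU (tmW W))) := by
          unfold vecS
          refine List.map_congr_left fun x hx => ?_
          rw [hp2 x hx]
        rw [h5]
        unfold XS
        rw [List.map_map]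
        have h6 : (insS n i U L).map ((fun x : List Bool × List (List Unit × ℕ) =>
            V x.1 (x.2.map (ansU (tmW W)))) ∘
              fun z => (z, (Q z).map fun q => evS W phi r d T N n q)) =
            (insS n i U L).map fun z => ZLs W z := by
          refine List.map_congr_left fun z hz => ?_
          simp only [Function.comp_apply]
          rw [hc.hQV, List.map_map]
          congr 1
          refine List.map_congr_left fun q hq => ?_
          simp only [Function.comp_apply]
          exact (evS_spec hc.hT (hc.hphi q) hc.hex (hrev z hz q hq)).symm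
        rw [h6]
        unfold insS vb
        rw [List.map_map]
        refine List.map_congr_left fun u _ => ?_
        simp only [Function.comp_apply]
        rw [Bool.eq_iff_iff, ZLs_zl]
        constructor
        · rintro ⟨b, hb, hSb⟩
          obtain ⟨j2, hb2, hbit⟩ := mem_selS.mp hb
          by_cases hj2 : j2 = j'
          · rw [← hj2]; exact hbit
          · exact absurd hSb (honly j2 b hb2 hj2)
        · intro hbit
          exact ⟨a', mem_selS.mpr ⟨j', hja', hbit⟩, hSN⟩
      rw [eqB_iff.mpr h4] at h3
      exact Bool.noConfusion h3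

theorem foldS_sound {T : List (Bool × ℕ)} {N : π} {n i : List Unit} {U : ℕ}
    (hc : CtxS O W ℓ phi r d Q V T N n U) :
    ∀ (l L : List ℕ), (∃ a ∈ L, SN W n.length i.length a U) →
      ∃ a ∈ l.foldl (fun L' _ => stepS W phi ℓ r d Q V T N n i U L') L,
        SN W n.length i.length a U := by
  intro l
  induction l with
  | nil => intro L h; exact h
  | cons a t ih =>
    intro L h
    rw [List.foldl_cons]
    exact ih _ (stepS_sound hc h)

end Pool.Agent.CKP
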